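import Pool.Agent.Run7.h517.WS6
import Pool.Agent.Y23.G.Ts5

/-!
# The growth of the min-max values, the Riemann hypothesis and zero-free half-planes
-/

set_option autoImplicit false
set_option linter.unusedSectionVars false
set_option maxHeartbeats 2000000

open MeasureTheory Complex Filter Topology Set
open scoped ComplexConjugate

namespace Pool.Agent.Y23.G.WS

section

variable [D : ZD]

/-- the `k`-th largest real part of a zero -/
noncomputable def th (k : ℕ) : ℝ := sSup {σ : ℝ | 0 ≤ σ ∧ MZ k σ}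

lemma th_bdd {k : ℕ} (hk : 1 ≤ k) : BddAbove {σ : ℝ | 0 ≤ σ ∧ MZ k σ} :=
  ⟨3 / 2, fun _ hσ => le_of_not_gt fun h => not_MZ_of_strip hk h.le hσ.2⟩

lemma not_MZ_th {k : ℕ} (hk : 1 ≤ k) : ¬ MZ k (th k) := by
  intro h
  have h0 : 0 ≤ th k := Real.sSup_nonneg fun σ hσ => hσ.1
  obtain ⟨σ', h1, h2⟩ := h.open hk
  exact absurd (le_csSup (th_bdd hk) ⟨by linarith, h2⟩) (not_le.2 h1)

lemma MZ_of_lt {k : ℕ} {σ : ℝ} (h0 : {σ : ℝ | 0 ≤ σ ∧ MZ k σ}.Nonempty) (h : σ < th k) : MZ k σ := by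
  obtain ⟨σ', h1, h2⟩ := exists_lt_of_lt_csSup h0 h
  exact MZ.anti h1.2 h2.le

/-- **the counting of the zeros to the right of a line through the growth of the values** -/
theorem count {k : ℕ} (hk : 1 ≤ k) {h : ℝ} (hh : 0 ≤ h) :
    (MZ k (1 / 2 + h) ↔ ∃ ε A : ℝ, 0 < ε ∧ ∀ a : ℝ, A ≤ a → lm k a ≤ -Real.exp ((2 * h + ε) * a)) ∧
    (MZ k (1 / 2 + h) ↔ ∃ ε : ℝ, 0 < ε ∧ ∀ A : ℝ, ∃ a : ℝ, A ≤ a ∧ lm k a ≤ -Real.exp ((2 * h + ε) * a)) := by
  have h1 : MZ k (1 / 2 + h) → ∃ ε A : ℝ, 0 < ε ∧ ∀ a : ℝ, A ≤ a → lm k a ≤ -Real.exp ((2 * h + ε) * a) := by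
    intro hm
    obtain ⟨ε, A, h1, _, h2⟩ := upper hk hh hm
    exact ⟨ε, A, h1, h2⟩
  have h2 : (∃ ε A : ℝ, 0 < ε ∧ ∀ a : ℝ, A ≤ a → lm k a ≤ -Real.exp ((2 * h + ε) * a)) →
      ∃ ε : ℝ, 0 < ε ∧ ∀ A : ℝ, ∃ a : ℝ, A ≤ a ∧ lm k a ≤ -Real.exp ((2 * h + ε) * a) := by
    rintro ⟨ε, A, hε, H⟩
    exact ⟨ε, hε, fun A' => ⟨max A A', le_max_right _ _, H _ (le_max_left _ _)⟩⟩
  have h3 : (∃ ε : ℝ, 0 < ε ∧ ∀ A : ℝ, ∃ a : ℝ, A ≤ a ∧ lm k a ≤ -Real.exp ((2 * h + ε) * a)) → MZ k (1 / 2 + h) := by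
    rintro ⟨ε, hε, H⟩
    by_contra hm
    obtain ⟨C, hC, HC⟩ := lower (D := D)
    obtain ⟨A, hA, hAe⟩ := poly_exp hC hε
    obtain ⟨a, ha, hla⟩ := H A
    have ha0 : 0 < a := by linarith
    have h4 := (HC k a h ha0 hh hm).2
    have h5 := hAe a ha
    have h6 : Real.exp ((2 * h + ε) * a) = Real.exp (ε * a) * Real.exp (2 * h * a) := by
      rw [← Real.exp_add]; congr 1; ring
    rw [h6] at hla
    have h7 := mul_lt_mul_of_pos_right h5 (Real.exp_pos (2 * h * a))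
    linarith
  exact ⟨⟨h1, fun h => h3 (h2 h)⟩, ⟨fun h => h2 (h1 h), h3⟩⟩

/-- **the exact rate of growth of the values** -/
theorem rate {k : ℕ} (hk : 1 ≤ k) (hm : MZ k (1 / 2)) :
    Tendsto (fun a : ℝ => Real.log (-lm k a) / (2 * a)) atTop (𝓝 (th k - 1 / 2)) := by
  have hne : {σ : ℝ | 0 ≤ σ ∧ MZ k σ}.Nonempty := ⟨1 / 2, by norm_num, hm⟩
  have hlow : ∀ σ : ℝ, 1 / 2 ≤ σ → MZ k σ → ∃ A : ℝ, 1 ≤ A ∧ ∀ a : ℝ, A ≤ a →
      0 < -lm k a ∧ σ - 1 / 2 < Real.log (-lm k a) / (2 * a) := by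
    intro σ hσ hmσ
    obtain ⟨ε, A, hε, hA, H⟩ := upper hk (h := σ - 1 / 2) (by linarith)
      (by rwa [show (1 : ℝ) / 2 + (σ - 1 / 2) = σ by ring])
    refine ⟨A, hA, fun a ha => ?_⟩
    have ha0 : 0 < a := by linarith
    have h1 := H a ha
    have h2 : Real.exp ((2 * (σ - 1 / 2) + ε) * a) ≤ -lm k a := by linarith
    have h3 : (2 * (σ - 1 / 2) + ε) * a ≤ Real.log (-lm k a) :=
      (Real.le_log_iff_exp_le ((Real.exp_pos _).trans_le h2)).2 h2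
    refine ⟨(Real.exp_pos _).trans_le h2, ?_⟩
    rw [lt_div_iff₀ (by positivity)]
    have := mul_pos hε ha0
    nlinarith
  rw [tendsto_order]
  constructor
  · intro b hb
    have h1 : MZ k (max (1 / 2) (b + 1 / 2)) := by
      rcases le_total (b + 1 / 2) (1 / 2) with h | h
      · rw [max_eq_left h]; exact hm
      · rw [max_eq_right h]
        exact MZ_of_lt hne (by linarith)
    obtain ⟨A, _, H⟩ := hlow _ (le_max_left _ _) h1
    filter_upwards [eventually_ge_atTop A] with a ha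
    have := (H a ha).2
    have h2 : b + 1 / 2 ≤ max (1 / 2) (b + 1 / 2) := le_max_right _ _
    linarith
  · intro b hb
    obtain ⟨C, hC, HC⟩ := lower (D := D)
    have hth : 1 / 2 ≤ th k := le_csSup (th_bdd hk) ⟨by norm_num, hm⟩
    set δ := 2 * (b - (th k - 1 / 2)) with hδ
    obtain ⟨A, hA, hAe⟩ := poly_exp hC (δ := δ) (by rw [hδ]; linarith)
    obtain ⟨A', hA', H'⟩ := hlow (1 / 2) le_rfl hm
    filter_upwards [eventually_ge_atTop A, eventually_ge_atTop A'] with a ha ha'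
    have ha0 : 0 < a := by linarith
    have hpos : 0 < -lm k a := (H' a ha').1
    have h1 := (HC k a (th k - 1 / 2) ha0 (by linarith) (by
      rw [show (1 : ℝ) / 2 + (th k - 1 / 2) = th k by ring]; exact not_MZ_th hk)).2
    have h2 := mul_lt_mul_of_pos_right (hAe a ha) (Real.exp_pos (2 * (th k - 1 / 2) * a))
    have h3 : -lm k a < Real.exp (2 * b * a) := by
      have e : Real.exp (2 * b * a) = Real.exp (δ * a) * Real.exp (2 * (th k - 1 / 2) * a) := by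
        rw [← Real.exp_add, hδ]; congr 1; ring
      rw [e]; linarith
    have h4 : Real.log (-lm k a) < 2 * b * a := by
      rw [Real.log_lt_iff_lt_exp hpos]; exact h3
    rw [div_lt_iff₀ (by positivity)]
    linarith

/-- the values are nonnegative if all zeros are on the line -/
theorem nonneg_of_line (hRH : ∀ ρ : Zt, (ρ : ℂ).re = 1 / 2) {k : ℕ} (hk : 1 ≤ k) (a : ℝ) : 0 ≤ lm k a := by
  refine Real.sInf_nonneg ?_
  rintro r ⟨f, hf, hr⟩
  obtain ⟨h1, h2⟩ := hr (fun _ => 1) (fun h => one_ne_zero (congrFun h ⟨0, hk⟩))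
  set F := fun x => ∑ i, (1 : ℂ) * f i x
  have h3 : 0 ≤ QQ F := by
    unfold QQ
    refine tsum_nonneg fun ρ => mul_nonneg (Nat.cast_nonneg _) ?_
    have e : -conj ((ρ : ℂ) - 1 / 2) = (ρ : ℂ) - 1 / 2 := by
      apply Complex.ext
      · rw [Complex.neg_re, Complex.conj_re, Complex.sub_re, hRH ρ]; norm_num
      · rw [Complex.neg_im, Complex.conj_im, neg_neg]
    unfold GG
    rw [e, Complex.mul_conj, Complex.ofReal_re]
    exact Complex.normSq_nonneg _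
  by_contra hlt
  rw [not_le] at hlt
  have := mul_neg_of_neg_of_pos hlt h1
  linarith

/-- **the Riemann hypothesis** -/
theorem rh_nonneg : (∀ ρ : Zt, (ρ : ℂ).re = 1 / 2) ↔ ∀ a : ℝ, 0 < a → 0 ≤ lm 1 a := by
  constructor
  · intro h a _
    exact nonneg_of_line h le_rfl a
  · intro h ρ
    by_contra hne
    have hm : MZ 1 (1 / 2 + 0) := by
      rcases lt_or_gt_of_ne hne with h1 | h1
      · refine ⟨fun _ => ((rfZ ρ : Zt) : ℂ), fun i j _ => Subsingleton.elim i j, fun _ => ⟨(rfZ ρ).2, ?_⟩⟩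
        rw [rfZ_val, Complex.sub_re, Complex.conj_re, Complex.one_re]
        linarith
      · exact ⟨fun _ => (ρ : ℂ), fun i j _ => Subsingleton.elim i j, fun _ => ⟨ρ.2, by linarith⟩⟩
    obtain ⟨ε, A, hε, hA, H⟩ := upper le_rfl le_rfl hm
    have h1 := H A le_rfl
    have h2 := h A (by linarith)
    have h3 := Real.exp_pos ((2 * 0 + ε) * A)
    linarith

/-- **zero-free half-planes** -/
theorem half_plane : ((∃ δ : ℝ, 0 < δ ∧ ¬ MZ 1 (1 - δ)) ↔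
      ∃ δ C : ℝ, 0 < δ ∧ ∀ a : ℝ, 0 < a → -(C * Real.exp ((1 - δ) * a)) ≤ lm 1 a) ∧
    ((∃ δ : ℝ, 0 < δ ∧ ¬ MZ 1 (1 - δ)) ↔
      ∃ δ : ℝ, 0 < δ ∧ ∀ A : ℝ, ∃ a : ℝ, A ≤ a ∧ -Real.exp ((1 - δ) * a) ≤ lm 1 a) := by
  have h1 : (∃ δ : ℝ, 0 < δ ∧ ¬ MZ 1 (1 - δ)) →
      ∃ δ C : ℝ, 0 < δ ∧ ∀ a : ℝ, 0 < a → -(C * Real.exp ((1 - δ) * a)) ≤ lm 1 a := by
    rintro ⟨δ0, hδ0, hm0⟩
    set δ := min δ0 (1 / 2) with hδ
    have hδp : 0 < δ := lt_min hδ0 (by norm_num)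
    have hδ2 : δ ≤ 1 / 2 := min_le_right _ _
    have hm : ¬ MZ 1 (1 / 2 + (1 / 2 - δ)) := by
      intro h
      refine hm0 (h.anti ?_)
      have : δ ≤ δ0 := min_le_left _ _
      linarith
    obtain ⟨C, hC, HC⟩ := lower (D := D)
    refine ⟨δ, C * (1 + 2 / δ + 2 / δ ^ 2), hδp, fun a ha => ?_⟩
    have h1 := (HC 1 a (1 / 2 - δ) ha (by linarith) hm).2
    refine le_trans (neg_le_neg ?_) h1
    have h2 := poly_exp' hδp ha
    have e : Real.exp ((1 - δ) * a) = Real.exp (δ * a) * Real.exp (2 * (1 / 2 - δ) * a) := by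
      rw [← Real.exp_add]; congr 1; ring
    rw [e]
    have h3 := mul_le_mul_of_nonneg_right (mul_le_mul_of_nonneg_left h2 hC.le) (Real.exp_pos (2 * (1 / 2 - δ) * a)).le
    linarith
  have h2 : (∃ δ C : ℝ, 0 < δ ∧ ∀ a : ℝ, 0 < a → -(C * Real.exp ((1 - δ) * a)) ≤ lm 1 a) →
      ∃ δ : ℝ, 0 < δ ∧ ∀ A : ℝ, ∃ a : ℝ, A ≤ a ∧ -Real.exp ((1 - δ) * a) ≤ lm 1 a := by
    rintro ⟨δ, C, hδ, H⟩
    refine ⟨δ / 2, by positivity, fun A => ?_⟩
    set a := max (max A 1) (2 * C / δ) with ha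
    have ha1 : 1 ≤ a := (le_max_right _ _).trans (le_max_left _ _)
    have haA : A ≤ a := (le_max_left _ _).trans (le_max_left _ _)
    have haC : 2 * C / δ ≤ a := le_max_right _ _
    refine ⟨a, haA, le_trans (neg_le_neg ?_) (H a (by linarith))⟩
    have h3 : C ≤ Real.exp (δ / 2 * a) := by
      rw [div_le_iff₀ hδ] at haC
      have := Real.add_one_le_exp (δ / 2 * a)
      linarith
    have e : Real.exp ((1 - δ / 2) * a) = Real.exp (δ / 2 * a) * Real.exp ((1 - δ) * a) := by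
      rw [← Real.exp_add]; congr 1; ring
    rw [e]
    exact mul_le_mul_of_nonneg_right h3 (Real.exp_pos _).le
  have h3 : (∃ δ : ℝ, 0 < δ ∧ ∀ A : ℝ, ∃ a : ℝ, A ≤ a ∧ -Real.exp ((1 - δ) * a) ≤ lm 1 a) →
      ∃ δ : ℝ, 0 < δ ∧ ¬ MZ 1 (1 - δ) := by
    rintro ⟨δ0, hδ0, H⟩
    set δ := min δ0 1 with hδ
    have hδp : 0 < δ := lt_min hδ0 one_pos
    have hδ1 : δ ≤ 1 := min_le_right _ _
    have hδ0' : δ ≤ δ0 := min_le_left _ _
    refine ⟨δ / 4, by positivity, fun hm => ?_⟩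
    obtain ⟨ε, A, hε, hA, HA⟩ := upper le_rfl (h := 1 / 2 - δ / 4) (by linarith)
      (by rwa [show (1 : ℝ) / 2 + (1 / 2 - δ / 4) = 1 - δ / 4 by ring])
    obtain ⟨a, ha, hla⟩ := H A
    have ha0 : 0 < a := by linarith
    have h4 := HA a ha
    have h5 : Real.exp ((2 * (1 / 2 - δ / 4) + ε) * a) ≤ Real.exp ((1 - δ0) * a) := by linarith
    rw [Real.exp_le_exp] at h5
    have h6 := le_of_mul_le_mul_right h5 ha0
    linarith
  exact ⟨⟨h1, fun h => h3 (h2 h)⟩, ⟨fun h => h2 (h1 h), h3⟩⟩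

end

/-- the first value is the optimal constant -/
theorem lm_greatest [D : ZD] [EC : ZC] {a : ℝ} (ha : 0 < a) :
    IsGreatest {r : ℝ | ∀ f : ℝ → ℂ, Hd a f → r * LL f ≤ QQ f} (lm 1 a) := by
  refine ⟨fun f hf => lm_one ha hf, fun r hr => ?_⟩
  refine le_csInf ?_ ?_
  · obtain ⟨f, hf, hN⟩ := exists_elem (DZ := D) ha
    have h1 := N2_le_LL hf
    have h2 : 0 < LL f := by
      rw [hN] at h1
      have := Real.pi_pos
      linarith
    refine ⟨QQ f / LL f, fun _ => f, fun _ => hf, fun c hc => ?_⟩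
    have e : (fun x => ∑ i : Fin 1, c i * f x) = fun x => c 0 * f x := by
      funext x; rw [Fin.sum_univ_one]
    have hc0 : c 0 ≠ 0 := by
      intro h
      refine hc (funext fun i => ?_)
      rw [Subsingleton.elim i 0]; exact h
    rw [e, LL_smul, QQ_smul']
    have h3 : 0 < ‖c 0‖ := norm_pos_iff.2 hc0
    refine ⟨by positivity, ?_⟩
    rw [div_mul_eq_mul_div, le_div_iff₀ h2]
    linarith
  · rintro r' ⟨f, hf, hr'⟩
    obtain ⟨h1, h2⟩ := hr' (fun _ => 1) (fun h => one_ne_zero (congrFun h 0))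
    have h3 := hr _ (lc_Hd hf (fun _ => 1)).1
    exact le_of_mul_le_mul_right (h3.trans h2) h1

/-- the first value is at most doubly exponentially small -/
theorem small [L : LFun] {c : ℝ} (hc : c < 2 * cc (L := L)) : ∃ A : ℝ, 1 ≤ A ∧ ∀ a : ℝ, A ≤ a →
    lm (D := zd (L := L)) 1 a ≤ Real.exp (-(c * Real.exp (2 * a / (L.m : ℝ)))) := by
  obtain ⟨A, hA, H⟩ := GM_upper hc
  refine ⟨A, hA, fun a ha => ?_⟩
  have ha0 : 0 < a := by linarith
  have h1 := H a ha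
  obtain ⟨g, hg, hgN⟩ := exists_ground (DZ := zd (L := L)) ha0
  have h2 := lm_one ha0 hg.1
  have h3 : QQ g = GM a * N2 g := by
    have := hg.2
    unfold bq at this
    linarith
  have h4 := N2_le_LL hg.1
  have h5 : N2 g ≤ LL g := by nlinarith [Real.pi_gt_three]
  have h6 : 0 < LL g := by linarith
  have h7 : QQ g ≤ Real.exp (-(c * Real.exp (2 * a / (L.m : ℝ)))) * LL g := by
    rw [h3]
    calc GM a * N2 g ≤ Real.exp (-(c * Real.exp (2 * a / (L.m : ℝ)))) * N2 g :=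
          mul_le_mul_of_nonneg_right h1 hgN.le
      _ ≤ _ := mul_le_mul_of_nonneg_left h5 (Real.exp_pos _).le
  exact le_of_mul_le_mul_right (h2.trans h7) h6

end Pool.Agent.Y23.G.WS
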