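import Pool.Agent.Run7.h517.T2LHa
import Pool.Agent.Run7.h833.CM
import Pool.Agent.Run7.h517.T2P2

set_option autoImplicit false

/-!
# T2+, part 6: the core of the converse with the growth exponent on the critical line
-/

namespace Run7.h517

open Complex Filter Topology MeasureTheory Set
open Pool.Agent.H24R2.JP (XX HH Om)
open Pool.Agent.H986R2.K4
open Pool.Agent.H986R2.DBN (XT)

lemma zb_lim (h : ℝ) (hh1 : h ≤ 1 / 2)
    (H : ∀ ε : ℝ, 0 < ε → h + ε ≤ 1 / 2 → ZB (h + ε)) (H2 : h = 1 / 2 → ZB h) : ZB h := by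
  rcases lt_or_eq_of_le hh1 with h1 | h1
  · intro ε hε
    obtain ⟨δ, hδ⟩ : ∃ δ, δ = min (ε / 2) (1 / 2 - h) := ⟨_, rfl⟩
    have hδ0 : 0 < δ := by rw [hδ]; exact lt_min (by positivity) (by linarith)
    have hδ1 : δ ≤ ε / 2 := by rw [hδ]; exact min_le_left _ _
    have hδ2 : δ ≤ 1 / 2 - h := by rw [hδ]; exact min_le_right _ _
    obtain ⟨t1, ht1, hz⟩ := H δ hδ0 (by linarith) (ε / 2) (by positivity)
    refine ⟨t1, ht1, fun s hs ht => ?_⟩
    obtain ⟨a, b, c, d⟩ := hz s (by linarith) ht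
    have hs1 : 1 ≤ s.im := by linarith
    have hlog : 0 ≤ Real.log s.im := Real.log_nonneg hs1
    refine ⟨a, b.trans ?_, le_trans ?_ c, d.trans ?_⟩
    · apply mul_le_mul_of_nonneg_right _ hlog
      linarith
    · exact Real.rpow_le_rpow_of_exponent_le hs1 (by linarith)
    · exact Real.rpow_le_rpow_of_exponent_le hs1 (by linarith)
  · exact H2 h1

/-- The core of the converse: only `t = c / n` and bounded heights are used. -/
theorem sCoreAt (μ h c κ : ℝ) (hμ : 0 ≤ μ) (h2 : 2 * μ < h) (hh2 : h ≤ 1 / 2) (hc : 0 < c)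
    (hch : 8 * c < h * (h - 2 * μ)) (hκ : 1 < 4 * κ * c)
    (hG : ∀ e : ℝ, 0 < e → ∃ C : ℝ, ∀ t : ℝ, 1 ≤ |t| →
      ‖riemannZeta (1 / 2 + t * I)‖ ≤ C * |t| ^ (μ + e))
    (hThr : ∃ N : ℕ, ∀ n : ℕ, N ≤ n → ∀ s : ℂ, iteratedDeriv n (XT (c / n)) s = 0 →
      |s.im| ≤ Real.exp (κ * n) → s.re = 0) :
    {s : ℂ | 1 / 2 + h < s.re ∧ riemannZeta s = 0}.Finite := by
  by_contra hinf
  have hinf : {s : ℂ | 1 / 2 + h < s.re ∧ riemannZeta s = 0}.Infinite := hinf
  obtain ⟨E, hE⟩ : ∃ E : Set ℝ, E = {y | {s : ℂ | 1 / 2 + y < s.re ∧ riemannZeta s = 0}.Infinite} :=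
    ⟨_, rfl⟩
  have hEh : h ∈ E := by rw [hE]; exact hinf
  have hEb : ∀ y ∈ E, y ≤ 1 / 2 := by
    intro y hy
    by_contra hcon
    push Not at hcon
    rw [hE] at hy
    exact hy (finite_one (by linarith))
  obtain ⟨k, hk⟩ : ∃ k, k = sSup E := ⟨_, rfl⟩
  have hbd : BddAbove E := ⟨1 / 2, hEb⟩
  have hhk : h ≤ k := by rw [hk]; exact le_csSup hbd hEh
  have hk1 : k ≤ 1 / 2 := by rw [hk]; exact csSup_le ⟨h, hEh⟩ hEb
  have hk0 : 0 < k := by linarith
  have hfin : ∀ ε : ℝ, 0 < ε → {s : ℂ | 1 / 2 + (k + ε) < s.re ∧ riemannZeta s = 0}.Finite := by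
    intro ε hε
    by_contra hcon
    have : k + ε ∈ E := by rw [hE]; exact hcon
    have := le_csSup hbd this
    rw [← hk] at this
    linarith
  have hnf : ∀ ε : ℝ, 0 < ε → {s : ℂ | 1 / 2 + (k - ε) < s.re ∧ riemannZeta s = 0}.Infinite := by
    intro ε hε
    obtain ⟨y, hy, hy2⟩ := exists_lt_of_lt_csSup ⟨h, hEh⟩ (show k - ε < sSup E by rw [← hk]; linarith)
    rw [hE] at hy
    refine hy.mono ?_
    rintro s ⟨h1, h2⟩
    exact ⟨by linarith, h2⟩
  have hZB : ZB k := by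
    apply zb_lim k hk1
    · intro ε hε hle
      have h1 := zb_of_fin (1 / 2 + (k + ε)) (by linarith) (by linarith) (fin_of_finite (hfin ε hε))
      have e : 1 / 2 + (k + ε) - 1 / 2 = k + ε := by ring
      rwa [e] at h1
    · intro h1
      rw [h1]
      exact a1
  have hkey : 8 * c < k * (k - 2 * μ) := by
    have h3 : h * (h - 2 * μ) ≤ k * (k - 2 * μ) := by
      apply mul_le_mul hhk (by linarith) (by linarith) (by linarith)
    linarith
  refine Run7.h833.coreM ?_ gr2 hh tay μ c κ k hμ hc hk0 hk1 hkey hκ ?_ ?_ hThr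
  · intro B κ' ρ c0 hB h1 h2 h3 h4
    exact lrB κ' ρ c0 B h1 h2 h3 h4
  · intro ε hε
    exact plmu2 k μ ε hk0 hk1 hμ (by linarith) hε hZB hG
  · intro ε T1 hε
    by_contra hcon
    push Not at hcon
    obtain ⟨T, hT⟩ : ∃ T, T = max T1 1 := ⟨_, rfl⟩
    have hT1 : T1 ≤ T := by rw [hT]; exact le_max_left _ _
    have hT2 : 1 ≤ T := by rw [hT]; exact le_max_right _ _
    have hbad : ∀ s : ℂ, 1 / 2 + (k - ε) < s.re → s.re < 1 / 2 + (k + ε) → riemannZeta s = 0 →
        |s.im| < T := by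
      intro s s1 s2 s3
      by_contra hTs
      push Not at hTs
      have hpos : ∀ s : ℂ, 1 / 2 + (k - ε) < s.re → s.re < 1 / 2 + (k + ε) → T ≤ s.im →
          XX (s - 1 / 2) = 0 → False := by
        intro s s1 s2 s4 s3
        have h6 := hcon (s - 1 / 2) s3 (by simp; linarith) (by simp; linarith)
        have e : (s - 1 / 2 : ℂ).im = s.im := by simp
        rw [e] at h6
        linarith
      have hX : ∀ s : ℂ, 0 < s.im → riemannZeta s = 0 → XX (s - 1 / 2) = 0 := by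
        intro s s4 s3
        rw [Pool.Agent.H24R2.JP.zetaS.1 _ (by simpa using s4)]
        have e : (1 / 2 + (s - 1 / 2) : ℂ) = s := by ring
        rw [e, s3, mul_zero]
      rcases le_or_gt 0 s.im with h0 | h0
      · rw [abs_of_nonneg h0] at hTs
        exact hpos s s1 s2 hTs (hX s (by linarith) s3)
      · rw [abs_of_neg h0] at hTs
        have hc1 : riemannZeta ((starRingEnd ℂ) s) = 0 := by
          rw [riemannZeta_conj, s3, map_zero]
        refine hpos ((starRingEnd ℂ) s) (by simpa using s1) (by simpa using s2) (by simpa using hTs)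
          (hX _ (by simpa using h0) hc1)
    have hsub : {s : ℂ | 1 / 2 + (k - ε) < s.re ∧ riemannZeta s = 0} ⊆
        {s : ℂ | 1 / 2 + (k + ε / 2) < s.re ∧ riemannZeta s = 0} ∪
        {s : ℂ | s ∈ (Icc (1 / 2 + (k - ε)) (1 / 2 + (k + ε / 2)) ×ℂ Icc (-T) T) ∧
          riemannZeta s = 0} := by
      rintro s ⟨s1, s2⟩
      rcases lt_or_ge (1 / 2 + (k + ε / 2)) s.re with s3 | s3
      · exact Or.inl ⟨s3, s2⟩
      · right
        have h3 := abs_lt.1 (hbad s s1 (by linarith) s2)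
        refine ⟨?_, s2⟩
        rw [mem_reProdIm]
        exact ⟨⟨s1.le, s3⟩, ⟨h3.1.le, h3.2.le⟩⟩
    exact hnf ε hε (((hfin (ε / 2) (by positivity)).union
      (zeta_cpt (isCompact_Icc.reProdIm isCompact_Icc))).subset hsub)

theorem sCore : S_Core := by
  intro μ h c hμ h2 hh2 hc hch hG hThr
  refine sCoreAt μ h c (1 / c) hμ h2 hh2 hc hch ?_ hG ?_
  · have : 4 * (1 / c) * c = 4 := by field_simp
    rw [this]
    norm_num
  · obtain ⟨N, hN⟩ := hThr
    refine ⟨N + 1, fun n hn s hs _ => ?_⟩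
    have hn0 : (0 : ℝ) < n := by
      have : 0 < n := by omega
      exact_mod_cast this
    refine hN n (by omega) (c / n) (by positivity) ?_ s hs
    rw [mul_div_cancel₀ _ hn0.ne']

/-- The converse in the classical normalisation -/
theorem asy_of_at (μ c κ : ℝ) (hμ : 0 ≤ μ) (hc : 0 < c) (hκ : 1 < κ * c) (hG : Gr μ)
    (hN : ∃ N : ℕ, ∀ n : ℕ, N ≤ n → ∀ z : ℂ,
      iteratedDeriv n (Pool.Agent.H986R2.DBN.Ht (c / n)) z = 0 → |z.re| ≤ Real.exp (κ * n) →
      z.im = 0) :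
    Asy (1 / 2 + (μ + Real.sqrt (μ ^ 2 + 2 * c))) := by
  obtain ⟨q, hq⟩ : ∃ q, q = Real.sqrt (μ ^ 2 + 2 * c) := ⟨_, rfl⟩
  rw [← hq]
  have hq0 : 0 ≤ q := by rw [hq]; exact Real.sqrt_nonneg _
  have hq2 : q ^ 2 = μ ^ 2 + 2 * c := by rw [hq]; exact Real.sq_sqrt (by positivity)
  have hqμ : μ ≤ q := by
    rw [hq]; exact Real.le_sqrt_of_sq_le (by linarith)
  intro ε hε
  rcases le_or_gt (1 / 2) (μ + q + ε) with h1 | h1
  · exact finite_one (by linarith)
  obtain ⟨h, hh⟩ : ∃ h, h = μ + q + ε := ⟨_, rfl⟩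
  have hmain : 2 * c < h * (h - 2 * μ) := by
    have e : h * (h - 2 * μ) = (q + ε) ^ 2 - μ ^ 2 := by rw [hh]; ring
    have h3 : q ^ 2 < (q + ε) ^ 2 := by nlinarith
    rw [e]
    linarith
  obtain ⟨d, hd⟩ : ∃ d, d = κ - 1 / c := ⟨_, rfl⟩
  have hd0 : 0 < d := by
    have h3 : 1 / c < κ := by rwa [div_lt_iff₀ hc]
    linarith
  obtain ⟨k, hk⟩ : ∃ k, k = κ - d / 2 := ⟨_, rfl⟩
  have hk1 : 1 < 4 * k * (c / 4) := by
    have h3 : 1 / c < k := by rw [hk]; linarith
    have h4 : 1 < k * c := by rwa [div_lt_iff₀ hc] at h3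
    linarith
  have e5 : 1 / 2 + (μ + q) + ε = 1 / 2 + h := by rw [hh]; ring
  rw [e5]
  refine sCoreAt μ h (c / 4) k hμ (by linarith) (by linarith) (by linarith) (by linarith) hk1
    (gr_ex hμ hG) ?_
  obtain ⟨N, hN⟩ := hN
  obtain ⟨M, hM⟩ := exists_nat_gt (2 / d)
  refine ⟨N + M + 1, fun n hn s hs him => ?_⟩
  have hn0 : (0 : ℝ) < n := by
    have : 0 < n := by omega
    exact_mod_cast this
  have hnM : (M : ℝ) ≤ n := by
    have : M ≤ n := by omega
    exact_mod_cast this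
  have hdn : 1 ≤ d / 2 * n := by
    have h6 : 2 / d < n := lt_of_lt_of_le hM hnM
    rw [div_lt_iff₀ hd0] at h6
    linarith
  have h11 : (-2 * I * s).im = -2 * s.re := by
    have : -2 * I * s = ((-2 : ℝ) : ℂ) * (I * s) := by push_cast; ring
    rw [this, Complex.im_ofReal_mul, Complex.I_mul_im]
  have h12 : (-2 * I * s).re = 2 * s.im := by
    have : -2 * I * s = ((-2 : ℝ) : ℂ) * (I * s) := by push_cast; ring
    rw [this, Complex.re_ofReal_mul, Complex.I_mul_re]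
    ring
  have h10 := hN n (by omega) (-2 * I * s) ?_ ?_
  · rw [h11] at h10
    linarith
  · rw [Pool.Agent.H986R2.DBN.classHA (c / n) n _ (by positivity)]
    have h13 : c / n / 4 = c / 4 / n := by ring
    have h14 : I * (-2 * I * s) / 2 = s := by
      have := I_mul_I
      linear_combination (-s) * this
    rw [h13, h14, hs, mul_zero]
  · rw [h12, abs_mul, abs_of_pos (by norm_num : (0 : ℝ) < 2)]
    have h15 : (2 : ℝ) ≤ Real.exp (d / 2 * n) := by
      have := Real.add_one_le_exp (d / 2 * (n : ℝ))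
      linarith
    calc 2 * |s.im| ≤ Real.exp (d / 2 * n) * Real.exp (k * n) := by gcongr
      _ = Real.exp (κ * n) := by rw [← Real.exp_add]; congr 1; rw [hk]; ring

end Run7.h517
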