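import Pool.Agent.Y23.G.Gs

/-!
# The Plancherel-Polya inequality with the exact exponential factor
-/

set_option autoImplicit false
set_option linter.unusedSectionVars false
set_option maxHeartbeats 2000000

open MeasureTheory Complex Filter Topology Set
open scoped ComplexConjugate

namespace Pool.Agent.Y23.G.WS

/-- the trapezoid: `1` on `[-a, a]`, `0` off `[-a-1, a+1]` -/
noncomputable def trp (a x : ℝ) : ℂ := ((a + 1 : ℝ) : ℂ) * (tent (a + 1) x : ℂ) - (a : ℂ) * (tent a x : ℂ)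

lemma Fa_trp {a : ℝ} (ha : 0 < a) : Fa (a + 1) (trp a) :=
  ((Fa_tent (by linarith : 0 < a + 1)).smul _).sub (((Fa_tent ha).mono (by linarith)).smul _)

lemma trp_one {a x : ℝ} (ha : 0 < a) (hx : |x| ≤ a) : trp a x = 1 := by
  unfold trp tent
  rw [if_pos (by linarith), if_pos hx]
  have h1 : (a : ℂ) ≠ 0 := by exact_mod_cast ha.ne'
  have h2 : ((a + 1 : ℝ) : ℂ) ≠ 0 := by exact_mod_cast (by linarith : a + 1 ≠ 0)
  rw [ofReal_sub, ofReal_sub, ofReal_div, ofReal_div, mul_sub, mul_sub, mul_div_cancel₀ _ h1, mul_div_cancel₀ _ h2]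
  push_cast
  ring

lemma trp_norm {a : ℝ} (ha : 0 < a) (x : ℝ) : ‖trp a x‖ ≤ 1 := by
  by_cases hx : |x| ≤ a
  · rw [trp_one ha hx, norm_one]
  · by_cases hx2 : |x| ≤ a + 1
    · unfold trp tent
      rw [if_pos hx2, if_neg hx]
      have e : ((a + 1 : ℝ) : ℂ) * ((1 - |x| / (a + 1) : ℝ) : ℂ) - (a : ℂ) * ((0 : ℝ) : ℂ) = ((a + 1 - |x| : ℝ) : ℂ) := by
        have h2 : ((a + 1 : ℝ) : ℂ) ≠ 0 := by exact_mod_cast (by linarith : a + 1 ≠ 0)
        rw [ofReal_sub, ofReal_div, mul_sub, mul_div_cancel₀ _ h2]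
        push_cast
        ring
      rw [e, Complex.norm_real, Real.norm_eq_abs, abs_le]
      rw [not_le] at hx
      constructor <;> linarith
    · rw [(Fa_trp ha).2 x (not_le.1 hx2), norm_zero]
      exact zero_le_one

lemma trp_conj (a x : ℝ) : conj (trp a x) = trp a x := by
  unfold trp
  rw [map_sub, map_mul, map_mul, conj_ofReal, conj_ofReal, conj_ofReal, conj_ofReal]

lemma N2_trp {a : ℝ} (ha : 0 < a) : N2 (trp a) ≤ 2 * (a + 1) := by
  have h1 : N2 (trp a) ≤ ∫ x : ℝ, (Icc (-(a + 1)) (a + 1)).indicator (fun _ => (1 : ℝ)) x := by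
    unfold N2
    refine integral_mono (Fa_trp ha).sq_int ?_ fun x => ?_
    · rw [integrable_indicator_iff measurableSet_Icc]
      exact (continuous_const.integrableOn_Icc)
    · simp only
      by_cases h : x ∈ Icc (-(a + 1)) (a + 1)
      · rw [indicator_of_mem h]
        exact pow_le_one₀ (norm_nonneg _) (trp_norm ha x)
      · rw [indicator_of_notMem h]
        rw [mem_Icc, ← abs_le, not_le] at h
        rw [(Fa_trp ha).2 x h, norm_zero]
        norm_num
  rw [integral_indicator measurableSet_Icc] at h1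
  refine h1.trans (le_of_eq ?_)
  rw [setIntegral_const, smul_eq_mul, mul_one, Measure.real, Real.volume_Icc, ENNReal.toReal_ofReal (by linarith)]
  ring

lemma TT_trp_sq {a : ℝ} (ha : 0 < a) (w : ℂ) : w ^ 2 * TT (trp a) w =
    cexp (((a + 1 : ℝ) : ℂ) * w) + cexp (-(((a + 1 : ℝ) : ℂ) * w)) - cexp (a * w) - cexp (-(a * w)) := by
  have h1 := TT_tent (by linarith : 0 < a + 1) w
  have h2 := TT_tent ha w
  have h3 : TT (trp a) w = ((a + 1 : ℝ) : ℂ) * TT (fun x => (tent (a + 1) x : ℂ)) w -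
      (a : ℂ) * TT (fun x => (tent a x : ℂ)) w := by
    have := TT_sub ((Fa_tent (by linarith : 0 < a + 1)).smul ((a + 1 : ℝ) : ℂ))
      (((Fa_tent ha).mono (by linarith : a ≤ a + 1)).smul (a : ℂ)) w
    rw [TT_smul, TT_smul] at this
    exact this
  have h4 : (a : ℂ) ≠ 0 := by exact_mod_cast ha.ne'
  have h5 : ((a + 1 : ℝ) : ℂ) ≠ 0 := by exact_mod_cast (by linarith : a + 1 ≠ 0)
  rw [h3, mul_sub, mul_left_comm, h1, mul_left_comm, h2, mul_div_cancel₀ _ h4, mul_div_cancel₀ _ h5]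
  ring

/-- the kernel decays quadratically, with the exact exponential factor -/
lemma trp_bound {a : ℝ} (ha : 0 < a) (w : ℂ) :
    ‖TT (trp a) w‖ ≤ (6 * (1 + a) * Real.exp ((a + 1) * |w.re|)) / (1 + w.im ^ 2) := by
  set E := Real.exp ((a + 1) * |w.re|) with hE
  have hE0 : 0 < E := Real.exp_pos _
  have h1 : ‖TT (trp a) w‖ ≤ 2 * (a + 1) * E := by
    have h2 := norm_TT_le (by linarith : 0 < a + 1) (Fa_trp ha) w
    have h3 : 2 * (a + 1) * Real.exp (2 * (a + 1) * |w.re|) * N2 (trp a) ≤ (2 * (a + 1) * E) ^ 2 := by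
      have e : Real.exp (2 * (a + 1) * |w.re|) = E ^ 2 := by
        rw [hE, ← Real.exp_nat_mul]; congr 1; push_cast; ring
      rw [e]
      calc 2 * (a + 1) * E ^ 2 * N2 (trp a) ≤ 2 * (a + 1) * E ^ 2 * (2 * (a + 1)) :=
            mul_le_mul_of_nonneg_left (N2_trp ha) (by positivity)
        _ = (2 * (a + 1) * E) ^ 2 := by ring
    exact le_of_sq_le_sq (h2.trans h3) (by positivity)
  have h2 : ‖w‖ ^ 2 * ‖TT (trp a) w‖ ≤ 4 * E := by
    rw [← norm_pow, ← norm_mul, TT_trp_sq ha]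
    have h3 : ∀ (c : ℝ), 0 ≤ c → c ≤ a + 1 → ‖cexp ((c : ℂ) * w)‖ ≤ E ∧ ‖cexp (-((c : ℂ) * w))‖ ≤ E := by
      intro c hc hc1
      have hre : ((c : ℂ) * w).re = c * w.re := by simp
      have h5 : |c * w.re| ≤ (a + 1) * |w.re| := by
        rw [abs_mul, abs_of_nonneg hc]
        exact mul_le_mul_of_nonneg_right hc1 (abs_nonneg _)
      rw [abs_le] at h5
      constructor
      · rw [Complex.norm_exp, hre, hE]
        exact Real.exp_le_exp.2 h5.2
      · rw [Complex.norm_exp, neg_re, hre, hE]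
        exact Real.exp_le_exp.2 (by linarith [h5.1])
    obtain ⟨h4, h5⟩ := h3 (a + 1) (by linarith) le_rfl
    obtain ⟨h6, h7⟩ := h3 a ha.le (by linarith)
    calc _ ≤ ‖cexp (((a + 1 : ℝ) : ℂ) * w)‖ + ‖cexp (-(((a + 1 : ℝ) : ℂ) * w))‖ + ‖cexp (a * w)‖ + ‖cexp (-(a * w))‖ := by
          refine (norm_sub_le _ _).trans (add_le_add_left ?_ _)
          refine (norm_sub_le _ _).trans (add_le_add_left ?_ _)
          exact norm_add_le _ _
      _ ≤ _ := by linarith
  have h3 : w.im ^ 2 ≤ ‖w‖ ^ 2 := by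
    rw [← Complex.normSq_eq_norm_sq, Complex.normSq_apply]
    nlinarith [sq_nonneg w.re]
  rw [le_div_iff₀ (by positivity)]
  have h4 : w.im ^ 2 * ‖TT (trp a) w‖ ≤ 4 * E :=
    (mul_le_mul_of_nonneg_right h3 (norm_nonneg _)).trans h2
  nlinarith [mul_pos ha hE0]

/-- the reproducing formula -/
lemma reproduce' {a : ℝ} (ha : 0 < a) {f : ℝ → ℂ} (hf : Fa a f) (w : ℂ) :
    ∫ t : ℝ, TT f (t * I) * TT (trp a) (w - t * I) = 2 * Real.pi * TT f w := by
  have hg : Fa (a + 1) (fun x => trp a x * cexp (conj w * x)) := (Fa_trp ha).mul_bdd (by fun_prop)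
  have h := parseval hf hg
  have e1 : ∫ x : ℝ, f x * conj (trp a x * cexp (conj w * x)) = TT f w := by
    unfold TT
    congr 1
    funext x
    by_cases hx : a < |x|
    · rw [hf.2 x hx]; simp
    · rw [not_lt] at hx
      rw [trp_one ha hx, one_mul, ← Complex.exp_conj, map_mul, conj_ofReal, conj_conj]
  rw [e1] at h
  rw [← h]
  congr 1
  funext t
  rw [TT_mul_exp, TT_conj]
  simp only [trp_conj]
  congr 2
  rw [map_add, conj_conj, map_mul, conj_I, conj_ofReal]
  ring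

/-- Plancherel-Polya with the exact exponential factor -/
lemma pp' {a : ℝ} (ha : 0 < a) {f : ℝ → ℂ} (hf : Fa a f) (w : ℂ) :
    ‖TT f w‖ ^ 2 ≤ (6 * (1 + a) * Real.exp ((a + 1) * |w.re|)) ^ 2 *
      ∫ t : ℝ, ‖TT f (t * I)‖ ^ 2 * (1 / (1 + (w.im - t) ^ 2)) := by
  set C := 6 * (1 + a) * Real.exp ((a + 1) * |w.re|) with hCdef
  have hC : 0 < C := by positivity
  have hF := memLp_TT hf
  have hk := int_kernel w.im
  have hk0 : ∀ t : ℝ, 0 ≤ 1 / (1 + (w.im - t) ^ 2) := fun t => by positivity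
  have hk1 : ∀ t : ℝ, 1 / (1 + (w.im - t) ^ 2) ≤ 1 := fun t => by
    rw [div_le_one (by positivity)]; nlinarith [sq_nonneg (w.im - t)]
  set v : ℝ → ℝ := fun t => Real.sqrt (1 / (1 + (w.im - t) ^ 2)) with hv
  have hvm : AEStronglyMeasurable v volume := by
    have : Continuous v := by
      refine Real.continuous_sqrt.comp (Continuous.div continuous_const (by fun_prop) fun t => ?_)
      positivity
    exact this.aestronglyMeasurable
  have hv2 : ∀ t, v t ^ 2 = 1 / (1 + (w.im - t) ^ 2) := fun t => Real.sq_sqrt (hk0 t)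
  have hvL : MemLp v 2 volume := by
    rw [memLp_two_iff_integrable_sq hvm]
    simp only [hv2]
    exact hk.1
  have hv1 : ∀ t, v t ≤ 1 := fun t => Real.sqrt_le_one.2 (hk1 t)
  have hu : MemLp (fun t : ℝ => ‖TT f (t * I)‖ * v t) 2 volume := by
    refine hF.norm.mono (hF.norm.1.mul hvm) (Eventually.of_forall fun t => ?_)
    rw [norm_mul]
    have : ‖v t‖ ≤ 1 := by
      rw [Real.norm_eq_abs, abs_of_nonneg (Real.sqrt_nonneg _)]; exact hv1 t
    exact mul_le_of_le_one_right (norm_nonneg _) this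
  have h1 : ‖2 * Real.pi * TT f w‖ ≤ ∫ t : ℝ, (‖TT f (t * I)‖ * v t) * (C * v t) := by
    rw [← reproduce' ha hf w]
    refine norm_integral_le_of_norm_le (hu.integrable_mul (hvL.const_mul C)) (Eventually.of_forall fun t => ?_)
    rw [norm_mul]
    have h2 := trp_bound ha (w - t * I)
    have h3 : (w - t * I).im = w.im - t := by simp
    have h3' : (w - t * I).re = w.re := by simp
    rw [h3, h3'] at h2
    have h4 : (‖TT f (t * I)‖ * v t) * (C * v t) = ‖TT f (t * I)‖ * (C / (1 + (w.im - t) ^ 2)) := by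
      calc _ = ‖TT f (t * I)‖ * (C * v t ^ 2) := by ring
        _ = _ := by rw [hv2]; ring
    rw [h4]
    exact mul_le_mul_of_nonneg_left h2 (norm_nonneg _)
  have h2 := cs_int hu (hvL.const_mul C) (fun t => mul_nonneg (norm_nonneg _) (Real.sqrt_nonneg _))
    (fun t => mul_nonneg hC.le (Real.sqrt_nonneg _))
  have e1 : ∫ t : ℝ, (‖TT f (t * I)‖ * v t) ^ 2 =
      ∫ t : ℝ, ‖TT f (t * I)‖ ^ 2 * (1 / (1 + (w.im - t) ^ 2)) := by
    congr 1
    funext t
    rw [mul_pow, hv2]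
  have e2 : ∫ t : ℝ, (C * v t) ^ 2 = C ^ 2 * Real.pi := by
    have : (fun t => (C * v t) ^ 2) = fun t => C ^ 2 * (1 / (1 + (w.im - t) ^ 2)) := by
      funext t
      rw [mul_pow, hv2]
    rw [this, integral_const_mul, hk.2]
  rw [e1, e2] at h2
  set J := ∫ t : ℝ, ‖TT f (t * I)‖ ^ 2 * (1 / (1 + (w.im - t) ^ 2)) with hJ
  have hJ0 : 0 ≤ J := integral_nonneg fun t => mul_nonneg (by positivity) (hk0 t)
  have h3 : ‖2 * Real.pi * TT f w‖ ^ 2 ≤ J * (C ^ 2 * Real.pi) :=
    (pow_le_pow_left₀ (norm_nonneg _) h1 2).trans h2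
  have h4 : ‖2 * Real.pi * TT f w‖ ^ 2 = (2 * Real.pi) ^ 2 * ‖TT f w‖ ^ 2 := by
    rw [norm_mul, mul_pow]
    congr 2
    have : ‖((2 * Real.pi : ℝ) : ℂ)‖ = 2 * Real.pi := by
      rw [Complex.norm_real, Real.norm_eq_abs, abs_of_pos (by positivity)]
    push_cast at this
    exact this
  rw [h4] at h3
  have hpi := Real.pi_gt_three
  have h5 : 0 ≤ C ^ 2 * J := by positivity
  have h6 : Real.pi * ‖TT f w‖ ^ 2 ≤ Real.pi * (C ^ 2 * J) := by
    nlinarith [sq_nonneg ‖TT f w‖, Real.pi_pos, mul_nonneg Real.pi_pos.le (sq_nonneg ‖TT f w‖)]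
  exact le_of_mul_le_mul_left h6 Real.pi_pos

/-- **the sum over the zeros against the norm of the form domain, with the exact exponential factor** -/
theorem SS_le [D : ZD] : ∃ C : ℝ, 0 < C ∧ ∀ a h : ℝ, 0 < a → 0 ≤ h → (∀ ρ : Zt, |(ρ : ℂ).re - 1 / 2| ≤ h) →
    ∀ f : ℝ → ℂ, Hd a f → Dom f ∧ SS f ≤ C * (1 + a) ^ 2 * Real.exp (2 * (a + 1) * h) * LL f := by
  classical
  obtain ⟨K, hK, hz⟩ := zsum
  refine ⟨36 * K, by positivity, fun a h ha hh hZ f hf => ?_⟩
  set C := (6 * (1 + a) * Real.exp ((a + 1) * h)) ^ 2 with hCdef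
  have hC : 0 < C := by positivity
  have eC : C * K * LL f = 36 * K * (1 + a) ^ 2 * Real.exp (2 * (a + 1) * h) * LL f := by
    have e : Real.exp (2 * (a + 1) * h) = Real.exp ((a + 1) * h) ^ 2 := by
      rw [← Real.exp_nat_mul]; congr 1; push_cast; ring
    rw [e, hCdef]; ring
  have key : ∀ S : Finset Zt, ∑ ρ ∈ S, (mu ρ : ℝ) * ‖TT f ((ρ : ℂ) - 1 / 2)‖ ^ 2 ≤ C * K * LL f := by
    intro S
    have hint : ∀ y : ℝ, Integrable (fun t : ℝ => ‖TT f (t * I)‖ ^ 2 * (1 / (1 + (y - t) ^ 2))) := by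
      intro y
      refine (int_TT_sq hf.1).mono' ?_ (Eventually.of_forall fun t => ?_)
      · refine Continuous.aestronglyMeasurable ?_
        refine ((TT_line_cont hf.1).norm.pow 2).mul ?_
        refine continuous_const.div (by fun_prop) fun t => ?_
        positivity
      · have h1 : 1 / (1 + (y - t) ^ 2) ≤ 1 := by
          rw [div_le_one (by positivity)]
          have := sq_nonneg (y - t)
          linarith
        have h2 : 0 ≤ 1 / (1 + (y - t) ^ 2) := by positivity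
        have h3 := sq_nonneg ‖TT f (t * I)‖
        rw [Real.norm_eq_abs, abs_of_nonneg (mul_nonneg h3 h2)]
        nlinarith
    calc ∑ ρ ∈ S, (mu ρ : ℝ) * ‖TT f ((ρ : ℂ) - 1 / 2)‖ ^ 2
        ≤ ∑ ρ ∈ S, (mu ρ : ℝ) * (C * ∫ t : ℝ, ‖TT f (t * I)‖ ^ 2 * (1 / (1 + ((ρ : ℂ).im - t) ^ 2))) := by
          refine Finset.sum_le_sum fun ρ _ => mul_le_mul_of_nonneg_left ?_ (Nat.cast_nonneg _)
          have h1 := pp' ha hf.1 ((ρ : ℂ) - 1 / 2)
          have e : ((ρ : ℂ) - 1 / 2).im = (ρ : ℂ).im := by simp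
          have e2 : ((ρ : ℂ) - 1 / 2).re = (ρ : ℂ).re - 1 / 2 := by
            rw [Complex.sub_re]; norm_num
          rw [e, e2] at h1
          refine h1.trans (mul_le_mul_of_nonneg_right ?_ (integral_nonneg fun t => by positivity))
          rw [hCdef]
          refine pow_le_pow_left₀ (by positivity) ?_ 2
          refine mul_le_mul_of_nonneg_left (Real.exp_le_exp.2 ?_) (by positivity)
          exact mul_le_mul_of_nonneg_left (hZ ρ) (by linarith)
      _ = C * ∫ t : ℝ, ∑ ρ ∈ S, (mu ρ : ℝ) * (‖TT f (t * I)‖ ^ 2 * (1 / (1 + ((ρ : ℂ).im - t) ^ 2))) := by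
          rw [integral_finsetSum _ fun ρ _ => (hint _).const_mul _, Finset.mul_sum]
          refine Finset.sum_congr rfl fun ρ _ => ?_
          rw [integral_const_mul]
          ring
      _ ≤ C * ∫ t : ℝ, K * (Lg t * ‖TT f (t * I)‖ ^ 2) := by
          refine mul_le_mul_of_nonneg_left ?_ hC.le
          refine integral_mono (integrable_finsetSum _ fun ρ _ => (hint _).const_mul _) (hf.2.const_mul K) fun t => ?_
          simp only
          have h1 := hz t (S.map (Function.Embedding.subtype _)) (by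
            intro s hs
            rw [Finset.mem_map] at hs
            obtain ⟨u, _, rfl⟩ := hs
            exact u.2)
          rw [Finset.sum_map] at h1
          have e : ∑ ρ ∈ S, (mu ρ : ℝ) * (‖TT f (t * I)‖ ^ 2 * (1 / (1 + ((ρ : ℂ).im - t) ^ 2))) =
              ‖TT f (t * I)‖ ^ 2 * ∑ ρ ∈ S, (mu ρ : ℝ) * (1 / (1 + ((ρ : ℂ).im - t) ^ 2)) := by
            rw [Finset.mul_sum]
            exact Finset.sum_congr rfl fun ρ _ => by ring
          rw [e]
          have h2 : ‖TT f (t * I)‖ ^ 2 * ∑ ρ ∈ S, (mu ρ : ℝ) * (1 / (1 + ((ρ : ℂ).im - t) ^ 2)) ≤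
              ‖TT f (t * I)‖ ^ 2 * (K * Lg t) := mul_le_mul_of_nonneg_left h1 (sq_nonneg _)
          linarith
      _ = C * K * LL f := by
          rw [integral_const_mul]; unfold LL; ring
  have hs : Dom f := summable_of_sum_le (fun ρ => by positivity) key
  exact ⟨hs, by rw [← eC]; exact hs.tsum_le_of_sum_le key⟩

end Pool.Agent.Y23.G.WS
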