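import Pool.Agent.Run7.h517.WS1
import Pool.Agent.Y23.G.Fw4

/-!
# Test functions with prescribed zeros
-/

set_option autoImplicit false
set_option linter.unusedSectionVars false
set_option maxHeartbeats 2000000

open MeasureTheory Complex Filter Topology Set
open scoped ComplexConjugate

namespace Pool.Agent.Y23.G.WS

lemma shFa {b η a : ℝ} (h : b + |η| ≤ a) {f : ℝ → ℂ} (hf : Fa b f) : Fa a (fun x => f (x + η)) := by
  refine ⟨?_, fun x hx => hf.2 _ ?_⟩
  · exact hf.1.comp_measurePreserving (measurePreserving_add_right volume η)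
  · have h1 : |x| ≤ |x + η| + |η| := by
      have := abs_sub (x + η) η
      simpa using this
    linarith

lemma shTT (f : ℝ → ℂ) (η : ℝ) (w : ℂ) : TT (fun x => f (x + η)) w = cexp (-(w * η)) * TT f w := by
  unfold TT
  rw [← integral_add_right_eq_self (fun x : ℝ => f x * cexp (w * x)) η, ← integral_const_mul]
  refine integral_congr_ae (Eventually.of_forall fun x => ?_)
  simp only
  rw [mul_left_comm, ← Complex.exp_add]
  congr 2
  push_cast
  ring

/-- the powers of the kernel -/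
lemma powf (n : ℕ) : ∃ f : ℝ → ℂ, Fa (n + 1) f ∧ ∀ w, TT f w = TT (kap (1 / 2)) w ^ (n + 1) := by
  have h8 : (0 : ℝ) < 1 / 2 := by norm_num
  have hF : Fa 1 (kap (1 / 2)) := by
    have := Fa_kap h8
    rwa [show 2 * (1 / 2 : ℝ) = 1 by norm_num] at this
  induction n with
  | zero =>
    refine ⟨kap (1 / 2), ?_, fun w => ?_⟩
    · push_cast; rw [zero_add]; exact hF
    · rw [zero_add, pow_one]
  | succ n ih =>
    obtain ⟨f, hf, hT⟩ := ih
    obtain ⟨g, hg, hG⟩ := conv_TT hf hF (kap_bdd h8)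
    refine ⟨g, ?_, fun w => ?_⟩
    · push_cast; exact hg
    · rw [hG, hT, pow_succ _ (n + 1)]

/-- the factor which kills the points of a list -/
noncomputable def ZP (b1 : ℝ) (Z : List ℂ) (w : ℂ) : ℂ := (Z.map fun z => cexp ((b1 : ℂ) * (w - z)) - 1).prod

lemma ZP_nil (b1 : ℝ) (w : ℂ) : ZP b1 [] w = 1 := by simp [ZP]

lemma ZP_cons (b1 : ℝ) (z : ℂ) (Z : List ℂ) (w : ℂ) :
    ZP b1 (z :: Z) w = (cexp ((b1 : ℂ) * (w - z)) - 1) * ZP b1 Z w := by simp [ZP]

lemma ZP_zero (b1 : ℝ) {Z : List ℂ} {z : ℂ} (h : z ∈ Z) : ZP b1 Z z = 0 := by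
  unfold ZP
  refine List.prod_eq_zero ?_
  rw [List.mem_map]
  exact ⟨z, h, by simp⟩

lemma ZP_ne {b1 : ℝ} (hb : 0 < b1) {Z : List ℂ} {w : ℂ} (h : ∀ z ∈ Z, z ≠ w ∧ b1 * |w.im - z.im| < 2 * Real.pi) :
    ZP b1 Z w ≠ 0 := by
  unfold ZP
  rw [ne_eq, List.prod_eq_zero_iff, List.mem_map]
  rintro ⟨z, hz, h1⟩
  obtain ⟨h2, h3⟩ := h z hz
  rw [sub_eq_zero, Complex.exp_eq_one_iff] at h1
  obtain ⟨n, hn⟩ := h1
  have hre := congrArg Complex.re hn
  have him := congrArg Complex.im hn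
  simp only [Complex.mul_re, Complex.mul_im, Complex.ofReal_re, Complex.ofReal_im, Complex.sub_re, Complex.sub_im,
    Complex.intCast_re, Complex.intCast_im, Complex.I_re, Complex.I_im, Complex.re_ofNat, Complex.im_ofNat,
    mul_zero, zero_mul, mul_one, add_zero, sub_zero, zero_add] at hre him
  have hn0 : n = 0 := by
    by_contra hne
    have h4 : (1 : ℝ) ≤ |(n : ℝ)| := by
      have := Int.one_le_abs hne
      exact_mod_cast this
    have h5 : b1 * |w.im - z.im| = |(n : ℝ)| * (2 * Real.pi) := by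
      have h6 : b1 * |w.im - z.im| = |b1 * (w.im - z.im)| := by rw [abs_mul, abs_of_pos hb]
      rw [h6, him, abs_mul, abs_of_pos (by positivity : (0 : ℝ) < 2 * Real.pi)]
    nlinarith [Real.pi_pos]
  rw [hn0] at him
  simp only [Int.cast_zero, zero_mul] at him
  refine h2 ?_
  apply Complex.ext
  · have := (mul_eq_zero.1 hre).resolve_left hb.ne'
    linarith
  · have := (mul_eq_zero.1 him).resolve_left hb.ne'
    linarith

lemma ZP_bound {b1 : ℝ} (hb : 0 ≤ b1) (hb1 : b1 ≤ 1) {w : ℂ} (hw : |w.re| ≤ 1) (Z : List ℂ) (hZ : ∀ z ∈ Z, |z.re| ≤ 1) :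
    ‖ZP b1 Z w‖ ≤ 9 ^ Z.length := by
  induction Z with
  | nil => rw [ZP_nil]; simp
  | cons z Z ih =>
    rw [ZP_cons, norm_mul, List.length_cons, pow_succ, mul_comm]
    refine mul_le_mul (ih fun z hz => hZ z (List.mem_cons_of_mem _ hz)) ?_ (norm_nonneg _) (by positivity)
    have hz := hZ z List.mem_cons_self
    have h1 : ((b1 : ℂ) * (w - z)).re ≤ 2 := by
      have e : ((b1 : ℂ) * (w - z)).re = b1 * (w.re - z.re) := by simp
      rw [e]
      rw [abs_le] at hw hz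
      have h2 : w.re - z.re ≤ 2 := by linarith [hw.2, hz.1]
      nlinarith
    have h2 : ‖cexp ((b1 : ℂ) * (w - z))‖ ≤ 8 := by
      rw [Complex.norm_exp]
      have h3 := Real.exp_one_lt_d9
      calc Real.exp ((b1 : ℂ) * (w - z)).re ≤ Real.exp 2 := Real.exp_le_exp.2 h1
        _ = Real.exp 1 ^ 2 := by rw [← Real.exp_nat_mul]; norm_num
        _ ≤ 2.7182818286 ^ 2 := pow_le_pow_left₀ (Real.exp_pos _).le h3.le 2
        _ ≤ 8 := by norm_num
    refine (norm_sub_le _ _).trans ?_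
    rw [norm_one]
    linarith

/-- functions whose transform vanishes at the points of a list -/
lemma kill {b1 : ℝ} (hb : 0 ≤ b1) (Z : List ℂ) {a : ℝ} {f : ℝ → ℂ} (hf : Fa a f) :
    ∃ g : ℝ → ℂ, Fa (a + Z.length * b1) g ∧ ∀ w, TT g w = ZP b1 Z w * TT f w := by
  induction Z with
  | nil =>
    refine ⟨f, by simpa using hf, fun w => ?_⟩
    rw [ZP_nil, one_mul]
  | cons z Z ih =>
    obtain ⟨g, hg, hG⟩ := ih
    have h1 : Fa (a + (z :: Z).length * b1) (fun x => g (x + -b1)) := by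
      refine shFa ?_ hg
      rw [abs_neg, abs_of_nonneg hb, List.length_cons]
      push_cast
      linarith
    have h2 : Fa (a + (z :: Z).length * b1) g := by
      refine hg.mono ?_
      rw [List.length_cons]
      push_cast
      linarith
    refine ⟨fun x => cexp (-((b1 : ℂ) * z)) * g (x + -b1) - g x, (h1.smul _).sub h2, fun w => ?_⟩
    rw [TT_sub (h1.smul _) h2, TT_smul, shTT, hG, ZP_cons]
    have e : cexp ((b1 : ℂ) * (w - z)) = cexp (-((b1 : ℂ) * z)) * cexp (-(w * ((-b1 : ℝ) : ℂ))) := by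
      rw [← Complex.exp_add]; congr 1; push_cast; ring
    rw [e]
    ring

/-- the two shifts -/
lemma two_shift {a b : ℝ} (hb : 0 ≤ b) {g : ℝ → ℂ} (hg : Fa a g) (α : ℂ) :
    ∃ f : ℝ → ℂ, Fa (a + b) f ∧ ∀ w, TT f w = (α * cexp (b * w) + cexp (-(b * w))) * TT g w := by
  have h1 : Fa (a + b) (fun x => g (x + -b)) := shFa (by rw [abs_neg, abs_of_nonneg hb]) hg
  have h2 : Fa (a + b) (fun x => g (x + b)) := shFa (by rw [abs_of_nonneg hb]) hg
  refine ⟨fun x => α * g (x + -b) + g (x + b), (h1.smul _).add h2, fun w => ?_⟩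
  rw [TT_add (h1.smul _) h2, TT_smul, shTT, shTT]
  have e1 : cexp (-(w * ((-b : ℝ) : ℂ))) = cexp (b * w) := by congr 1; push_cast; ring
  have e2 : cexp (-(w * (b : ℂ))) = cexp (-(b * w)) := by congr 1; ring
  rw [e1, e2]
  ring

/-- the norm of the form domain from a quadratic bound on the line -/
lemma LL_of_bound {a : ℝ} {f : ℝ → ℂ} (hF : Fa a f) {B γ : ℝ} (hb : ∀ v : ℝ, ‖TT f (v * I)‖ ≤ B / (1 + (v - γ) ^ 2)) :
    Hd a f ∧ LL f ≤ 6 * Real.pi * (1 + |γ|) * B ^ 2 := by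
  have key : ∀ v : ℝ, Lg v * ‖TT f (v * I)‖ ^ 2 ≤ (B ^ 2 * (6 * (1 + |γ|))) * (1 + (v - γ) ^ 2)⁻¹ := by
    intro v
    have h1 := hb v
    set u := v - γ with hu
    have h3 : Lg v ≤ (6 * (1 + |γ|)) * (1 + u ^ 2) := by
      unfold Lg
      have h4 := Real.log_le_sub_one_of_pos (show 0 < 3 + |v| by positivity)
      have h5 : |v| ≤ |u| + |γ| := by
        have : v = u + γ := by rw [hu]; ring
        rw [this]; exact abs_add_le _ _
      have h6 : |u| ≤ 1 + u ^ 2 := by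
        rw [← sq_abs]
        nlinarith [sq_nonneg (|u| - 1), abs_nonneg u]
      nlinarith [sq_nonneg u, abs_nonneg γ, mul_nonneg (abs_nonneg γ) (sq_nonneg u)]
    have h4 := pow_le_pow_left₀ (norm_nonneg _) h1 2
    have hv : 0 < 1 + u ^ 2 := by positivity
    calc Lg v * ‖TT f (v * I)‖ ^ 2 ≤ ((6 * (1 + |γ|)) * (1 + u ^ 2)) * ((B / (1 + u ^ 2)) ^ 2) :=
          mul_le_mul h3 h4 (by positivity) (by positivity)
      _ = (B ^ 2 * (6 * (1 + |γ|))) * (1 + u ^ 2)⁻¹ := by field_simp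
  have hbig : Integrable (fun v : ℝ => (B ^ 2 * (6 * (1 + |γ|))) * (1 + (v - γ) ^ 2)⁻¹) := by
    refine Integrable.const_mul ?_ _
    exact integrable_inv_one_add_sq.comp_sub_right γ
  have hint : Integrable (fun v : ℝ => Lg v * ‖TT f (v * I)‖ ^ 2) := by
    refine hbig.mono' (LL_cont hF).aestronglyMeasurable (Eventually.of_forall fun v => ?_)
    rw [Real.norm_eq_abs, abs_of_nonneg (mul_nonneg (Lg_pos v).le (sq_nonneg _))]
    exact key v
  refine ⟨⟨hF, hint⟩, ?_⟩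
  unfold LL
  refine (integral_mono hint hbig key).trans (le_of_eq ?_)
  rw [integral_const_mul, integral_sub_right_eq_self (fun v : ℝ => (1 + v ^ 2)⁻¹) γ, integral_univ_inv_one_add_sq]
  ring

/-- the zeros in a window are finite in number -/
lemma win_fin [D : ZD] (γ R : ℝ) : {ρ : Zt | |(ρ : ℂ).im - γ| ≤ R}.Finite := by
  have h1 := (zsummable γ).tendsto_cofinite_zero
  have h2 : ∀ᶠ ρ : Zt in cofinite, (mu ρ : ℝ) * (1 / (1 + ((ρ : ℂ).im - γ) ^ 2)) < 1 / (1 + R ^ 2) :=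
    h1.eventually (gt_mem_nhds (by positivity))
  rw [eventually_cofinite] at h2
  refine h2.subset fun ρ hρ => ?_
  simp only [Set.mem_ofPred_eq, not_lt] at hρ ⊢
  have h3 : (1 : ℝ) ≤ mu ρ := by exact_mod_cast D.mpos ρ ρ.2
  have h4 : ((ρ : ℂ).im - γ) ^ 2 ≤ R ^ 2 := by
    rw [← sq_abs]
    exact pow_le_pow_left₀ (abs_nonneg _) hρ 2
  calc 1 / (1 + R ^ 2) ≤ 1 / (1 + ((ρ : ℂ).im - γ) ^ 2) := one_div_le_one_div_of_le (by positivity) (by linarith)
    _ ≤ (mu ρ : ℝ) * (1 / (1 + ((ρ : ℂ).im - γ) ^ 2)) := le_mul_of_one_le_left (by positivity) h3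

end Pool.Agent.Y23.G.WS
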