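import Pool.Agent.Run7.h517.WS2
import Pool.Agent.Y23.G.Fw2

/-!
# Test functions concentrated at one zero off the line
-/

set_option autoImplicit false
set_option linter.unusedSectionVars false
set_option maxHeartbeats 2000000

open MeasureTheory Complex Filter Topology Set
open scoped ComplexConjugate

namespace Pool.Agent.Y23.G.WS

lemma norm_GG' (f : ℝ → ℂ) (w : ℂ) : ‖GG f f w‖ = ‖TT f w‖ * ‖TT f (-conj w)‖ := by
  unfold GG; rw [norm_mul, RCLike.norm_conj]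

lemma norm_GG_half (f : ℝ → ℂ) (w : ℂ) : ‖GG f f w‖ ≤ 1 / 2 * (‖TT f w‖ ^ 2 + ‖TT f (-conj w)‖ ^ 2) := by
  rw [norm_GG']
  nlinarith [sq_nonneg (‖TT f w‖ - ‖TT f (-conj w)‖)]

/-- the two point computation -/
lemma two_pt (F0 F1 : ℂ) {X : ℂ} (hX : 1 ≤ ‖X‖) : ∃ α : ℂ, ‖α‖ = 1 ∧
    (((α * X + X⁻¹) * F0) * conj ((α * (conj X)⁻¹ + conj X) * F1)).re ≤ (3 - ‖X‖ ^ 2) * (‖F0‖ * ‖F1‖) := by
  have hX0 : X ≠ 0 := by
    intro h
    rw [h, norm_zero] at hX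
    linarith
  set P := F0 * conj F1 with hP
  have hPn : ‖P‖ = ‖F0‖ * ‖F1‖ := by rw [hP, norm_mul, RCLike.norm_conj]
  obtain ⟨c, hc, hcP⟩ := unimod (X ^ 2 * P)
  refine ⟨conj c, by rw [RCLike.norm_conj, hc], ?_⟩
  have hcc : conj c * c = 1 := by
    rw [mul_comm, Complex.mul_conj, Complex.normSq_eq_norm_sq, hc]; norm_num
  have e : ((conj c * X + X⁻¹) * F0) * conj ((conj c * (conj X)⁻¹ + conj X) * F1) =
      2 * P + conj c * (X ^ 2 * P) + c * (X⁻¹ ^ 2 * P) := by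
    rw [map_mul, map_add, map_mul, map_inv₀, conj_conj, conj_conj]
    have h1 : (conj c * X + X⁻¹) * (c * X⁻¹ + X) = (conj c * c) * (X * X⁻¹) + conj c * X ^ 2 + c * X⁻¹ ^ 2 + X⁻¹ * X := by ring
    have h2 : X * X⁻¹ = 1 := mul_inv_cancel₀ hX0
    have h3 : X⁻¹ * X = 1 := inv_mul_cancel₀ hX0
    rw [hcc, h2, h3] at h1
    calc (conj c * X + X⁻¹) * F0 * ((c * X⁻¹ + X) * conj F1) = ((conj c * X + X⁻¹) * (c * X⁻¹ + X)) * P := by rw [hP]; ring
      _ = _ := by rw [h1]; ring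
  rw [e, hcP, Complex.add_re, Complex.add_re]
  have h1 : (2 * P).re ≤ 2 * ‖P‖ := by
    refine (Complex.re_le_norm _).trans ?_
    rw [norm_mul]; norm_num
  have h2 : (-((‖X ^ 2 * P‖ : ℝ) : ℂ)).re = -(‖X‖ ^ 2 * ‖P‖) := by
    rw [neg_re, ofReal_re, norm_mul, norm_pow]
  have h3 : (c * (X⁻¹ ^ 2 * P)).re ≤ ‖P‖ := by
    refine (Complex.re_le_norm _).trans ?_
    rw [norm_mul, norm_mul, hc, one_mul, norm_pow, norm_inv]
    refine mul_le_of_le_one_left (norm_nonneg _) (pow_le_one₀ (by positivity) (inv_le_one_of_one_le₀ hX))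
  rw [h2, ← hPn]
  linarith

/-- the properties of a test function for the zero `1/2 + w0`: `A` is the size at the zero, `B` the size at the
other zeros, which vanishes for the zeros with `|Im ρ - Im w0| ≤ R` -/
structure Tst [D : ZD] (w0 : ℂ) (R A B V a : ℝ) (f : ℝ → ℂ) : Prop where
  dom : Hd a f
  norm : LL f ≤ V
  self : (GG f f w0).re ≤ -A
  refl : (GG f f (-conj w0)).re ≤ -A
  far : ∀ ρ : Zt, (ρ : ℂ) - 1 / 2 ≠ w0 → (ρ : ℂ) - 1 / 2 ≠ -conj w0 →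
    ‖TT f ((ρ : ℂ) - 1 / 2)‖ ^ 2 ≤ B * (1 / (1 + ((ρ : ℂ).im - w0.im) ^ 2))
  near : ∀ ρ : Zt, (ρ : ℂ) - 1 / 2 ≠ w0 → (ρ : ℂ) - 1 / 2 ≠ -conj w0 → |(ρ : ℂ).im - w0.im| ≤ R →
    TT f ((ρ : ℂ) - 1 / 2) = 0

/-- the construction for given parameters -/
lemma core [D : ZD] {w0 : ℂ} (hw : 0 < w0.re) (h0 : 1 / 2 + w0 ∈ D.Zs) {C c R : ℝ}
    (hC : ∀ w : ℂ, |w.re| ≤ 1 → ‖TT (kap (1 / 2)) w‖ ≤ C / (1 + w.im ^ 2)) (hC0 : 0 < C)
    (hc0 : 0 < c) (hc : ∀ x : ℝ, |x| ≤ 1 → c ≤ ‖TT (kap (1 / 2)) x‖) (hR : 0 < R) :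
    ∃ (N : ℕ) (p : ℝ), 0 < p ∧ ∀ (n : ℕ) (b : ℝ), 0 ≤ b → 3 ≤ Real.exp (2 * b * w0.re) → ∃ f : ℝ → ℂ,
      Tst w0 R ((Real.exp (2 * b * w0.re) - 3) * (p * c ^ (n + 1)) ^ 2)
        (4 * Real.exp (2 * b) * 81 ^ N * C * (C / (1 + R ^ 2)) ^ (2 * n + 1))
        (6 * Real.pi * (1 + |w0.im|) * (2 * 9 ^ N * C ^ (n + 1)) ^ 2) (n + 1 + N + b) f := by
  classical
  set γ := w0.im with hγ
  set w1 : ℂ := -conj w0 with hw1
  have hw1re : w1.re = -w0.re := by rw [hw1]; simp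
  have hw1im : w1.im = γ := by rw [hw1, hγ]; simp
  have hw0re : |w0.re| ≤ 1 := by
    have := half_re (⟨1 / 2 + w0, h0⟩ : Zt)
    simpa using this
  have hw1re' : |w1.re| ≤ 1 := by rw [hw1re, abs_neg]; exact hw0re
  have hcw1 : -conj w1 = w0 := by rw [hw1, map_neg, conj_conj, neg_neg]
  set Wf : Finset Zt := (win_fin γ R).toFinset with hWf
  set Zf : Finset ℂ := ((Wf.image (fun ρ : Zt => (ρ : ℂ) - 1 / 2)).erase w0).erase w1 with hZf
  set Z : List ℂ := Zf.toList with hZ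
  have hZmem : ∀ z ∈ Z, z ≠ w0 ∧ z ≠ w1 ∧ |z.re| ≤ 1 ∧ |z.im - γ| ≤ R := by
    intro z hz
    rw [hZ, Finset.mem_toList, hZf, Finset.mem_erase, Finset.mem_erase, Finset.mem_image] at hz
    obtain ⟨h1, h2, ρ, hρ, rfl⟩ := hz
    rw [hWf, Set.Finite.mem_toFinset] at hρ
    refine ⟨h2, h1, half_re ρ, ?_⟩
    have e : ((ρ : ℂ) - 1 / 2).im = (ρ : ℂ).im := by simp
    rw [e]
    exact hρ
  set b1 : ℝ := 1 / (R + 1) with hb1
  have hb1p : 0 < b1 := by rw [hb1]; positivity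
  have hb1l : b1 ≤ 1 := by
    rw [hb1, div_le_one (by linarith)]; linarith
  have hne : ∀ w : ℂ, w.im = γ → (∀ z ∈ Z, z ≠ w) → ZP b1 Z w ≠ 0 := by
    intro w hwim hz
    refine ZP_ne hb1p fun z hzZ => ⟨hz z hzZ, ?_⟩
    rw [hwim, abs_sub_comm]
    have h1 := (hZmem z hzZ).2.2.2
    have h2 : b1 * |z.im - γ| ≤ b1 * R := mul_le_mul_of_nonneg_left h1 hb1p.le
    have h3 : b1 * R ≤ 1 := by
      rw [hb1, div_mul_eq_mul_div, one_mul, div_le_one (by linarith)]; linarith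
    have := Real.pi_gt_three
    linarith
  have hp0 : 0 < ‖ZP b1 Z w0‖ := norm_pos_iff.2 (hne w0 rfl fun z hz => (hZmem z hz).1)
  have hp1 : 0 < ‖ZP b1 Z w1‖ := norm_pos_iff.2 (hne w1 hw1im fun z hz => (hZmem z hz).2.1)
  refine ⟨Z.length, min ‖ZP b1 Z w0‖ ‖ZP b1 Z w1‖, lt_min hp0 hp1, fun n b hb hb3 => ?_⟩
  set N := Z.length with hN
  set p := min ‖ZP b1 Z w0‖ ‖ZP b1 Z w1‖ with hp
  have hp' : 0 < p := lt_min hp0 hp1
  obtain ⟨f1, hf1, hT1⟩ := powf n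
  have hf2 : Fa (n + 1) (fun x => f1 x * cexp (-(γ * I) * x)) := hf1.mul_bdd (by fun_prop)
  obtain ⟨f3, hf3, hT3⟩ := kill hb1p.le Z hf2
  obtain ⟨F, hF⟩ : ∃ F : ℂ → ℂ, ∀ w, TT f3 w = F w := ⟨_, fun _ => rfl⟩
  have hFw : ∀ w, F w = ZP b1 Z w * TT (kap (1 / 2)) (w - γ * I) ^ (n + 1) := by
    intro w
    rw [← hF, hT3, TT_mul_exp, hT1]
    congr 3
    ring
  have hFb : ∀ w : ℂ, |w.re| ≤ 1 → ‖F w‖ ≤ 9 ^ N * (C / (1 + (w.im - γ) ^ 2)) ^ (n + 1) := by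
    intro w hwr
    rw [hFw, norm_mul, norm_pow]
    refine mul_le_mul (ZP_bound hb1p.le hb1l hwr Z fun z hz => (hZmem z hz).2.2.1) ?_ (by positivity) (by positivity)
    refine pow_le_pow_left₀ (norm_nonneg _) ?_ _
    have h1 := hC (w - γ * I) (by simpa using hwr)
    simpa using h1
  have hFlow : ∀ w : ℂ, |w.re| ≤ 1 → w.im = γ → p ≤ ‖ZP b1 Z w‖ → p * c ^ (n + 1) ≤ ‖F w‖ := by
    intro w hwr hwi hpw
    rw [hFw, norm_mul, norm_pow]
    refine mul_le_mul hpw (pow_le_pow_left₀ hc0.le ?_ _) (by positivity) (norm_nonneg _)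
    have e : w - γ * I = (w.re : ℂ) := by
      apply Complex.ext <;> simp [hwi]
    rw [e]
    exact hc _ hwr
  have hF0 : p * c ^ (n + 1) ≤ ‖F w0‖ := hFlow w0 hw0re rfl (min_le_left _ _)
  have hF1 : p * c ^ (n + 1) ≤ ‖F w1‖ := hFlow w1 hw1re' hw1im (min_le_right _ _)
  set X : ℂ := cexp (b * w0) with hX
  have hXn : ‖X‖ = Real.exp (b * w0.re) := by
    rw [hX, Complex.norm_exp]; simp
  have hX1 : 1 ≤ ‖X‖ := by
    rw [hXn]; exact Real.one_le_exp (by positivity)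
  obtain ⟨α, hα, hαX⟩ := two_pt (F w0) (F w1) hX1
  obtain ⟨f, hf, hT'⟩ := two_shift hb hf3 α
  have hT : ∀ w, TT f w = (α * cexp (b * w) + cexp (-(b * w))) * F w := fun w => by rw [hT', hF]
  have e0 : TT f w0 = (α * X + X⁻¹) * F w0 := by
    rw [hT, Complex.exp_neg]
  have e1 : TT f w1 = (α * (conj X)⁻¹ + conj X) * F w1 := by
    rw [hT]
    have h1 : cexp (-((b : ℂ) * w1)) = conj X := by
      rw [hX, ← Complex.exp_conj, map_mul, conj_ofReal, hw1]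
      congr 1; ring
    have h2 : cexp ((b : ℂ) * w1) = (conj X)⁻¹ := by
      rw [← h1, Complex.exp_neg, inv_inv]
    rw [h1, h2]
  have hG0 : (GG f f w0).re ≤ (3 - ‖X‖ ^ 2) * (‖F w0‖ * ‖F w1‖) := by
    have : GG f f w0 = ((α * X + X⁻¹) * F w0) * conj ((α * (conj X)⁻¹ + conj X) * F w1) := by
      unfold GG
      rw [← hw1, e0, e1]
    rw [this]
    exact hαX
  have hX2 : ‖X‖ ^ 2 = Real.exp (2 * b * w0.re) := by
    rw [hXn, ← Real.exp_nat_mul]; congr 1; push_cast; ring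
  have hG0' : (GG f f w0).re ≤ -((Real.exp (2 * b * w0.re) - 3) * (p * c ^ (n + 1)) ^ 2) := by
    rw [hX2] at hG0
    refine hG0.trans ?_
    have h1 : (p * c ^ (n + 1)) ^ 2 ≤ ‖F w0‖ * ‖F w1‖ := by
      rw [pow_two]
      exact mul_le_mul hF0 hF1 (by positivity) (norm_nonneg _)
    have h2 : (Real.exp (2 * b * w0.re) - 3) * (p * c ^ (n + 1)) ^ 2 ≤
        (Real.exp (2 * b * w0.re) - 3) * (‖F w0‖ * ‖F w1‖) := mul_le_mul_of_nonneg_left h1 (by linarith)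
    linarith
  have hG1 : (GG f f w1).re = (GG f f w0).re := by
    have : GG f f w1 = conj (GG f f w0) := by
      unfold GG
      rw [hcw1, ← hw1, map_mul, conj_conj, mul_comm]
    rw [this, conj_re]
  -- the bound of the two exponentials
  have hH : ∀ w : ℂ, |w.re| ≤ 1 → ‖α * cexp (b * w) + cexp (-(b * w))‖ ≤ 2 * Real.exp b := by
    intro w hwr
    rw [abs_le] at hwr
    refine (norm_add_le _ _).trans ?_
    rw [norm_mul, hα, one_mul, Complex.norm_exp, Complex.norm_exp]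
    have h1 : ((b : ℂ) * w).re = b * w.re := by simp
    have h2 : (-((b : ℂ) * w)).re = -(b * w.re) := by simp
    rw [h1, h2]
    have h3 : Real.exp (b * w.re) ≤ Real.exp b := Real.exp_le_exp.2 (by nlinarith [hwr.2])
    have h4 : Real.exp (-(b * w.re)) ≤ Real.exp b := Real.exp_le_exp.2 (by nlinarith [hwr.1])
    linarith
  have hline : ∀ v : ℝ, ‖TT f (v * I)‖ ≤ (2 * 9 ^ N * C ^ (n + 1)) / (1 + (v - γ) ^ 2) := by
    intro v
    have hre : ((v : ℂ) * I).re = 0 := by simp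
    have him : ((v : ℂ) * I).im = v := by simp
    have h1 := hFb (v * I) (by rw [hre]; simp)
    rw [him] at h1
    have h2 : ‖α * cexp (b * (v * I)) + cexp (-(b * (v * I)))‖ ≤ 2 := by
      refine (norm_add_le _ _).trans ?_
      rw [norm_mul, hα, one_mul, Complex.norm_exp, Complex.norm_exp]
      have h3 : ((b : ℂ) * (v * I)).re = 0 := by simp
      have h4 : (-((b : ℂ) * (v * I))).re = 0 := by simp
      rw [h3, h4, Real.exp_zero]
      norm_num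
    rw [hT, norm_mul]
    set u := 1 + (v - γ) ^ 2 with hu
    have hu1 : 1 ≤ u := by rw [hu]; nlinarith [sq_nonneg (v - γ)]
    have hu0 : 0 < u := by linarith
    have h5 : (C / u) ^ (n + 1) ≤ C ^ (n + 1) / u := by
      rw [div_pow]
      refine div_le_div_of_nonneg_left (by positivity) hu0 ?_
      exact le_self_pow₀ hu1 (by omega)
    calc ‖α * cexp (b * (v * I)) + cexp (-(b * (v * I)))‖ * ‖F (v * I)‖ ≤ 2 * (9 ^ N * (C / u) ^ (n + 1)) :=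
          mul_le_mul h2 h1 (norm_nonneg _) (by norm_num)
      _ ≤ 2 * (9 ^ N * (C ^ (n + 1) / u)) := by gcongr
      _ = _ := by ring
  obtain ⟨hHd, hLL⟩ := LL_of_bound hf hline
  have hlen : (n : ℝ) + 1 + N * b1 + b ≤ n + 1 + N + b := by
    have : (N : ℝ) * b1 ≤ N := mul_le_of_le_one_right (Nat.cast_nonneg _) hb1l
    linarith
  have hnear : ∀ ρ : Zt, (ρ : ℂ) - 1 / 2 ≠ w0 → (ρ : ℂ) - 1 / 2 ≠ w1 → |(ρ : ℂ).im - γ| ≤ R →
      TT f ((ρ : ℂ) - 1 / 2) = 0 := by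
    intro ρ hne0 h2 h3
    have hmem : (ρ : ℂ) - 1 / 2 ∈ Z := by
      rw [hZ, Finset.mem_toList, hZf, Finset.mem_erase, Finset.mem_erase, Finset.mem_image]
      refine ⟨h2, hne0, ρ, ?_, rfl⟩
      rw [hWf, Set.Finite.mem_toFinset]
      exact h3
    rw [hT, hFw, ZP_zero b1 hmem]
    ring
  refine ⟨f, ⟨hHd.1.mono hlen, hHd.2⟩, hLL, hG0', by rw [hG1]; exact hG0', fun ρ hne0 h2 => ?_, hnear⟩
  have hB0 : 0 ≤ 4 * Real.exp (2 * b) * 81 ^ N * C * (C / (1 + R ^ 2)) ^ (2 * n + 1) := by positivity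
  by_cases h3 : |(ρ : ℂ).im - γ| ≤ R
  · rw [hnear ρ hne0 h2 h3, norm_zero, zero_pow two_ne_zero]
    positivity
  · rw [not_le] at h3
    have him : ((ρ : ℂ) - 1 / 2).im = (ρ : ℂ).im := by simp
    have hre := half_re ρ
    set u := 1 + ((ρ : ℂ).im - γ) ^ 2 with hu
    have hRu : 1 + R ^ 2 ≤ u := by
      rw [hu]
      have := pow_le_pow_left₀ hR.le h3.le 2
      rw [sq_abs] at this
      linarith
    have hu0 : 0 < u := by
      have := sq_nonneg R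
      linarith
    have h6 : ‖TT f ((ρ : ℂ) - 1 / 2)‖ ≤ (2 * Real.exp b) * (9 ^ N * (C / u) ^ (n + 1)) := by
      rw [hT, norm_mul]
      have h5 := hFb _ hre
      rw [him] at h5
      exact mul_le_mul (hH _ hre) h5 (norm_nonneg _) (by positivity)
    refine (pow_le_pow_left₀ (norm_nonneg _) h6 2).trans ?_
    have e2 : Real.exp (2 * b) = Real.exp b ^ 2 := by
      rw [← Real.exp_nat_mul]; congr 1
    have e81 : (81 : ℝ) ^ N = (9 ^ N) ^ 2 := by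
      rw [← pow_mul, mul_comm N 2, pow_mul]; norm_num
    have h10 : (C / u) ^ (2 * n + 1) ≤ (C / (1 + R ^ 2)) ^ (2 * n + 1) := by
      refine pow_le_pow_left₀ (by positivity) ?_ _
      exact div_le_div_of_nonneg_left hC0.le (by positivity) hRu
    calc ((2 * Real.exp b) * (9 ^ N * (C / u) ^ (n + 1))) ^ 2 =
        (4 * Real.exp b ^ 2 * (9 ^ N) ^ 2 * C * (1 / u)) * (C / u) ^ (2 * n + 1) := by
          have : (C / u) ^ (2 * n + 1) * (C * (1 / u)) = ((C / u) ^ (n + 1)) ^ 2 := by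
            rw [← pow_mul, show (n + 1) * 2 = (2 * n + 1) + 1 by ring, pow_succ]
            ring
          calc _ = 4 * Real.exp b ^ 2 * (9 ^ N) ^ 2 * ((C / u) ^ (n + 1)) ^ 2 := by ring
            _ = _ := by rw [← this]; ring
      _ ≤ (4 * Real.exp b ^ 2 * (9 ^ N) ^ 2 * C * (1 / u)) * (C / (1 + R ^ 2)) ^ (2 * n + 1) :=
          mul_le_mul_of_nonneg_left h10 (by positivity)
      _ = _ := by rw [e2, e81]; ring

end Pool.Agent.Y23.G.WS
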