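import Pool.Agent.Run7.h517.WS3

/-!
# Test functions for finitely many zeros off the line
-/

set_option autoImplicit false
set_option linter.unusedSectionVars false
set_option maxHeartbeats 2000000

open MeasureTheory Complex Filter Topology Set
open scoped ComplexConjugate

namespace Pool.Agent.Y23.G.WS

lemma Tst.mono [D : ZD] {w0 : ℂ} {R A A' B B' V V' a a' : ℝ} {f : ℝ → ℂ} (h : Tst w0 R A B V a f)
    (hA : A' ≤ A) (hB : B ≤ B') (hV : V ≤ V') (ha : a ≤ a') : Tst w0 R A' B' V' a' f where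
  dom := ⟨h.dom.1.mono ha, h.dom.2⟩
  norm := h.norm.trans hV
  self := h.self.trans (neg_le_neg hA)
  refl := h.refl.trans (neg_le_neg hA)
  far := fun ρ h1 h2 => (h.far ρ h1 h2).trans (mul_le_mul_of_nonneg_right hB (by positivity))
  near := h.near

/-- test functions for finitely many zeros with `Re ρ ≥ 1/2 + η` -/
theorem tests [D : ZD] {k : ℕ} (w : Fin k → ℂ) {η : ℝ} (hη : 0 < η) (hre : ∀ i, η ≤ (w i).re) (hη1 : η ≤ 1)
    (h0 : ∀ i, 1 / 2 + w i ∈ D.Zs) (R0 G : ℝ) (hG : 0 ≤ G) {ε : ℝ} (hε : 0 < ε) :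
    ∃ a0 : ℝ, 1 ≤ a0 ∧ ∀ a : ℝ, a0 ≤ a → ∃ (A B V R : ℝ) (f : Fin k → ℝ → ℂ), 0 < A ∧ 0 ≤ B ∧ R0 ≤ R ∧
      G * B ≤ A / 2 ∧ Real.exp ((2 * η - ε) * a) * (k * V) ≤ A / 2 ∧ ∀ i, Tst (w i) R A B V a (f i) := by
  classical
  have h8 : (0 : ℝ) < 1 / 2 := by norm_num
  obtain ⟨C, hC0, hC⟩ := kap_boundR h8 (r := 1)
  obtain ⟨c', hc'0, hc'⟩ := kap_real h8
  set c : ℝ := min c' 1 with hcdef
  have hc0 : 0 < c := lt_min hc'0 one_pos
  have hc1 : c ≤ 1 := min_le_right _ _
  have hc : ∀ x : ℝ, |x| ≤ 1 → c ≤ ‖TT (kap (1 / 2)) x‖ := fun x hx => (min_le_left _ _).trans (hc' x hx)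
  have hcC : c ≤ C := by
    have h1 := hc 0 (by simp)
    have h2 := hC 0 (by simp)
    rw [Complex.zero_im, zero_pow two_ne_zero, add_zero, div_one] at h2
    rw [Complex.ofReal_zero] at h1
    exact h1.trans h2
  obtain ⟨Γ, hΓ0, hΓ⟩ : ∃ Γ : ℝ, 0 ≤ Γ ∧ ∀ i, |(w i).im| ≤ Γ := by
    refine ⟨∑ i, |(w i).im|, Finset.sum_nonneg fun i _ => abs_nonneg _, fun i => ?_⟩
    exact Finset.single_le_sum (f := fun i => |(w i).im|) (fun i _ => abs_nonneg _) (Finset.mem_univ i)
  set Lam : ℝ := Real.log (C / c) with hLam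
  have hCc : 1 ≤ C / c := by rw [le_div_iff₀ hc0]; linarith
  have hLam0 : 0 ≤ Lam := Real.log_nonneg hCc
  have hexpLam : Real.exp Lam = C / c := Real.exp_log (by positivity)
  set θ : ℝ := min (1 / 2) (ε / (4 * (1 + Lam))) with hθdef
  have hθ0 : 0 < θ := lt_min (by norm_num) (by positivity)
  have hθ2 : θ ≤ 1 / 2 := min_le_left _ _
  have hθε : 2 * θ * (1 + Lam) ≤ ε / 2 := by
    have h1 : θ ≤ ε / (4 * (1 + Lam)) := min_le_right _ _
    rw [le_div_iff₀ (by positivity)] at h1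
    linarith
  set R : ℝ := max (C * Real.exp (2 / θ) / c ^ 2 + 1) R0 with hRdef
  have hR2 : C * Real.exp (2 / θ) / c ^ 2 + 1 ≤ R := le_max_left _ _
  have hR1 : 1 ≤ R := by
    have : 0 < C * Real.exp (2 / θ) / c ^ 2 := by positivity
    linarith
  have hR0 : 0 < R := by linarith
  set q : ℝ := C / (1 + R ^ 2) with hq
  have hq0 : 0 ≤ q := by positivity
  have hqle : q ≤ c ^ 2 * Real.exp (-(2 / θ)) := by
    rw [hq, div_le_iff₀ (by positivity)]
    have h1 : C * Real.exp (2 / θ) / c ^ 2 ≤ 1 + R ^ 2 := by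
      have h2 : R ≤ R ^ 2 := by nlinarith
      have h3 : C * Real.exp (2 / θ) / c ^ 2 ≤ R := by linarith
      linarith
    rw [div_le_iff₀ (by positivity)] at h1
    have h2 : Real.exp (-(2 / θ)) * Real.exp (2 / θ) = 1 := by rw [← Real.exp_add]; simp
    have h3 : 0 < Real.exp (-(2 / θ)) := Real.exp_pos _
    calc C = C * (Real.exp (-(2 / θ)) * Real.exp (2 / θ)) := by rw [h2, mul_one]
      _ = Real.exp (-(2 / θ)) * (C * Real.exp (2 / θ)) := by ring
      _ ≤ Real.exp (-(2 / θ)) * ((1 + R ^ 2) * c ^ 2) := mul_le_mul_of_nonneg_left h1 h3.le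
      _ = _ := by ring
  have hcore := fun i => core (D := D) (w0 := w i) (by linarith [hre i]) (h0 i) hC hC0 hc0 hc hR0
  choose Nf pf hpf hcore using hcore
  obtain ⟨p, hp, hpi⟩ : ∃ p : ℝ, 0 < p ∧ ∀ i, p ≤ pf i := by
    rcases isEmpty_or_nonempty (Fin k) with h | h
    · exact ⟨1, one_pos, fun i => (h.false i).elim⟩
    · obtain ⟨i0, hi0⟩ := Finite.exists_min pf
      exact ⟨pf i0, hpf i0, hi0⟩
  set N : ℕ := Finset.univ.sup Nf with hNdef
  have hN : ∀ i, Nf i ≤ N := fun i => Finset.le_sup (Finset.mem_univ i)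
  have hpi0 := Real.pi_pos
  set K1 : ℝ := G * (4 * 81 ^ N * C) * Real.exp (2 / θ) / p ^ 2 with hK1
  have hK10 : 0 ≤ K1 := by positivity
  set G1 : ℝ := 96 * k * Real.pi * (1 + Γ) * 81 ^ N / p ^ 2 with hG1
  have hG10 : 0 ≤ G1 := by positivity
  set K3 : ℝ := G1 * Real.exp (2 * (1 + Lam) + 2 * N) with hK3
  have hK30 : 0 ≤ K3 := by positivity
  refine ⟨max (max 1 (3 / η + 2 + 2 * N)) (max K1 (2 * K3 / ε)), le_max_of_le_left (le_max_left _ _), fun a ha => ?_⟩
  have ha1 : 1 ≤ a := (le_max_left _ _).trans ((le_max_left _ _).trans ha)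
  have ha2 : 3 / η + 2 + 2 * N ≤ a := (le_max_right _ _).trans ((le_max_left _ _).trans ha)
  have ha3 : K1 ≤ a := (le_max_left _ _).trans ((le_max_right _ _).trans ha)
  have ha4 : 2 * K3 / ε ≤ a := (le_max_right _ _).trans ((le_max_right _ _).trans ha)
  have ha0 : 0 < a := by linarith
  set n : ℕ := ⌊θ * a⌋₊ with hn
  have hn1 : (n : ℝ) ≤ θ * a := Nat.floor_le (by positivity)
  have hn2 : θ * a < n + 1 := Nat.lt_floor_add_one _
  have hn3 : (n : ℝ) ≤ a / 2 := hn1.trans (by nlinarith)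
  have h3η : 0 < 3 / η := by positivity
  set b : ℝ := a - (n + 1 + N) with hb
  have hb2 : a / 2 - 1 - N ≤ b := by rw [hb]; linarith
  have hb0 : 0 ≤ b := by linarith
  have hba : b ≤ a := by
    rw [hb]
    have : (0 : ℝ) ≤ n := Nat.cast_nonneg _
    have : (0 : ℝ) ≤ N := Nat.cast_nonneg _
    linarith
  have hE3 : 3 ≤ 2 * b * η := by
    have h1 : 3 / η ≤ 2 * b := by linarith
    rw [div_le_iff₀ hη] at h1
    linarith
  set E : ℝ := Real.exp (2 * b * η) with hE
  have hE8 : 8 ≤ E := by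
    have h1 := Real.exp_one_gt_d9
    calc (8 : ℝ) ≤ 2.7182818283 ^ 3 := by norm_num
      _ ≤ Real.exp 1 ^ 3 := pow_le_pow_left₀ (by norm_num) h1.le 3
      _ = Real.exp 3 := by rw [← Real.exp_nat_mul]; norm_num
      _ ≤ _ := Real.exp_le_exp.2 hE3
  have hEi : ∀ i, E ≤ Real.exp (2 * b * (w i).re) := fun i =>
    Real.exp_le_exp.2 (mul_le_mul_of_nonneg_left (hre i) (by linarith))
  have hf := fun i => hcore i n b hb0 ((by linarith : (3 : ℝ) ≤ E).trans (hEi i))
  choose f hf using hf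
  set P2 : ℝ := (p * c ^ (n + 1)) ^ 2 with hP2
  have hP20 : 0 < P2 := by positivity
  set B : ℝ := 4 * Real.exp (2 * b) * 81 ^ N * C * q ^ (2 * n + 1) with hBdef
  have hB0 : 0 ≤ B := by positivity
  set V : ℝ := 6 * Real.pi * (1 + Γ) * (2 * 9 ^ N * C ^ (n + 1)) ^ 2 with hVdef
  have hA0 : 0 < (E - 3) * P2 := mul_pos (by linarith) hP20
  have h3 : P2 = p ^ 2 * c ^ (2 * n + 2) := by
    rw [hP2, mul_pow, ← pow_mul]; congr 2; ring
  refine ⟨(E - 3) * P2, B, V, R, f, hA0, hB0, le_max_right _ _, ?_, ?_, fun i => ?_⟩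
  · -- the tail
    have hq2 : q ^ (2 * n + 1) ≤ c ^ (2 * n + 2) * (Real.exp (-(4 * a)) * Real.exp (2 / θ)) := by
      have h1 : q ^ (2 * n + 1) ≤ (c ^ 2 * Real.exp (-(2 / θ))) ^ (2 * n + 1) := pow_le_pow_left₀ hq0 hqle _
      have h2 : (c ^ 2 * Real.exp (-(2 / θ))) ^ (2 * n + 1) = (c ^ 2) ^ (2 * n + 1) * Real.exp (-(2 / θ)) ^ (2 * n + 1) :=
        mul_pow _ _ _
      have h3 : (c ^ 2) ^ (2 * n + 1) ≤ c ^ (2 * n + 2) := by
        rw [← pow_mul]
        exact pow_le_pow_of_le_one hc0.le hc1 (by omega)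
      have h4 : Real.exp (-(2 / θ)) ^ (2 * n + 1) ≤ Real.exp (-(4 * a)) * Real.exp (2 / θ) := by
        rw [← Real.exp_nat_mul, ← Real.exp_add]
        refine Real.exp_le_exp.2 ?_
        push_cast
        have h5 : 2 * a ≤ (2 * (n : ℝ) + 2) / θ := by
          rw [le_div_iff₀ hθ0]; linarith
        have h6 : (2 * (n : ℝ) + 1) * -(2 / θ) = -(2 * ((2 * n + 2) / θ)) + 2 / θ := by ring
        rw [h6]
        linarith
      rw [h2] at h1
      exact h1.trans (mul_le_mul h3 h4 (by positivity) (by positivity))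
    have hT : G * B ≤ P2 := by
      have h1 : Real.exp (2 * b) ≤ Real.exp (2 * a) := Real.exp_le_exp.2 (by linarith)
      have h2 : K1 ≤ Real.exp (2 * a) := by
        have := Real.add_one_le_exp (2 * a)
        linarith
      have h4 : Real.exp (2 * a) * (Real.exp (2 * a) * Real.exp (-(4 * a))) = 1 := by
        rw [← Real.exp_add, ← Real.exp_add]
        rw [show 2 * a + (2 * a + -(4 * a)) = 0 by ring, Real.exp_zero]
      have h5 : 0 < Real.exp (2 * a) * Real.exp (-(4 * a)) := by positivity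
      have h6 : K1 * (Real.exp (2 * a) * Real.exp (-(4 * a))) ≤ 1 := by
        rw [← h4]; exact mul_le_mul_of_nonneg_right h2 h5.le
      rw [h3, hBdef]
      calc G * (4 * Real.exp (2 * b) * 81 ^ N * C * q ^ (2 * n + 1))
          ≤ G * (4 * Real.exp (2 * a) * 81 ^ N * C * (c ^ (2 * n + 2) * (Real.exp (-(4 * a)) * Real.exp (2 / θ)))) := by
            gcongr
        _ = p ^ 2 * c ^ (2 * n + 2) * (K1 * (Real.exp (2 * a) * Real.exp (-(4 * a)))) := by
            rw [hK1]; field_simp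
        _ ≤ p ^ 2 * c ^ (2 * n + 2) * 1 := mul_le_mul_of_nonneg_left h6 (by positivity)
        _ = _ := by ring
    nlinarith
  · -- the comparison of the norms
    have h1 : V = 24 * Real.pi * (1 + Γ) * 81 ^ N * C ^ (2 * n + 2) := by
      have e81 : (81 : ℝ) ^ N = (9 ^ N) ^ 2 := by
        rw [← pow_mul, mul_comm N 2, pow_mul]; norm_num
      rw [hVdef, e81, mul_pow, mul_pow, ← pow_mul C, show (n + 1) * 2 = 2 * n + 2 by ring]
      ring
    have h2 : C ^ (2 * n + 2) = c ^ (2 * n + 2) * Real.exp ((2 * n + 2) * Lam) := by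
      have : Real.exp ((2 * n + 2) * Lam) = (C / c) ^ (2 * n + 2) := by
        rw [← hexpLam, ← Real.exp_nat_mul]; congr 1; push_cast; ring
      rw [this, ← mul_pow, mul_div_cancel₀ _ hc0.ne']
    have h4 : K3 ≤ Real.exp (ε / 2 * a) := by
      have h5 := Real.add_one_le_exp (ε / 2 * a)
      rw [div_le_iff₀ hε] at ha4
      linarith
    have h5 : Real.exp ((2 * n + 2) * Lam) * Real.exp (2 * (n + 1 + N)) ≤
        Real.exp (ε / 2 * a) * Real.exp (2 * (1 + Lam) + 2 * N) := by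
      rw [← Real.exp_add, ← Real.exp_add]
      refine Real.exp_le_exp.2 ?_
      have h6 : 2 * (n : ℝ) * (1 + Lam) ≤ ε / 2 * a := by
        calc 2 * (n : ℝ) * (1 + Lam) ≤ 2 * (θ * a) * (1 + Lam) := by gcongr
          _ = 2 * θ * (1 + Lam) * a := by ring
          _ ≤ _ := mul_le_mul_of_nonneg_right hθε ha0.le
      nlinarith
    have h6 : Real.exp (2 * η * a) ≤ E * Real.exp (2 * (n + 1 + N)) := by
      rw [hE, ← Real.exp_add]
      refine Real.exp_le_exp.2 ?_
      have h7 : (n : ℝ) + 1 + N = a - b := by rw [hb]; ring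
      rw [h7]
      nlinarith
    have h7 : Real.exp ((2 * η - ε) * a) = Real.exp (2 * η * a) * (Real.exp (-(ε / 2 * a)) * Real.exp (-(ε / 2 * a))) := by
      rw [← Real.exp_add, ← Real.exp_add]; congr 1; ring
    have h8' : Real.exp (-(ε / 2 * a)) * Real.exp (ε / 2 * a) = 1 := by rw [← Real.exp_add]; simp
    set e1 := Real.exp (-(ε / 2 * a)) with he1
    have he10 : 0 < e1 := Real.exp_pos _
    have hmain : Real.exp ((2 * η - ε) * a) * (k * V) ≤ E / 4 * P2 := by
      calc Real.exp ((2 * η - ε) * a) * (k * V)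
          ≤ (E * Real.exp (2 * (n + 1 + N)) * (e1 * e1)) * (k * (24 * Real.pi * (1 + Γ) * 81 ^ N * C ^ (2 * n + 2))) := by
            rw [h7, h1]
            exact mul_le_mul_of_nonneg_right (mul_le_mul_of_nonneg_right h6 (by positivity)) (by positivity)
        _ = (E / 4 * (p ^ 2 * c ^ (2 * n + 2))) * ((e1 * e1) * G1 *
              (Real.exp ((2 * n + 2) * Lam) * Real.exp (2 * (n + 1 + N)))) := by
            rw [h2, hG1]; field_simp; ring
        _ ≤ (E / 4 * (p ^ 2 * c ^ (2 * n + 2))) * ((e1 * e1) * G1 *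
              (Real.exp (ε / 2 * a) * Real.exp (2 * (1 + Lam) + 2 * N))) := by
            gcongr
        _ = (E / 4 * (p ^ 2 * c ^ (2 * n + 2))) * ((e1 * Real.exp (ε / 2 * a)) * (e1 * K3)) := by
            rw [hK3]; ring
        _ ≤ (E / 4 * (p ^ 2 * c ^ (2 * n + 2))) * 1 := by
            refine mul_le_mul_of_nonneg_left ?_ (by positivity)
            rw [h8', one_mul]
            calc e1 * K3 ≤ e1 * Real.exp (ε / 2 * a) := mul_le_mul_of_nonneg_left h4 he10.le
              _ = 1 := h8'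
        _ = _ := by rw [h3, mul_one]
    nlinarith
  · refine (hf i).mono ?_ ?_ ?_ ?_
    · refine mul_le_mul (by linarith [hEi i]) ?_ hP20.le (by linarith [hEi i])
      exact pow_le_pow_left₀ (by positivity) (mul_le_mul_of_nonneg_right (hpi i) (by positivity)) 2
    · rw [hBdef]
      have : (81 : ℝ) ^ Nf i ≤ 81 ^ N := pow_le_pow_right₀ (by norm_num) (hN i)
      gcongr
    · rw [hVdef]
      have h9 : (9 : ℝ) ^ Nf i ≤ 9 ^ N := pow_le_pow_right₀ (by norm_num) (hN i)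
      have h10 := hΓ i
      gcongr
    · have : (Nf i : ℝ) ≤ N := by exact_mod_cast hN i
      rw [hb]; linarith

end Pool.Agent.Y23.G.WS
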