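import Pool.Agent.Run7.h517.WS4

/-!
# The size of the Weil form and the number of zeros to the right of a line
-/

set_option autoImplicit false
set_option linter.unusedSectionVars false
set_option maxHeartbeats 2000000

open MeasureTheory Complex Filter Topology Set
open scoped ComplexConjugate

namespace Pool.Agent.Y23.G.WS

lemma TT_zero (w : ℂ) : TT (fun _ => (0 : ℂ)) w = 0 := by simp [TT]

/-- the transform of a linear combination -/
lemma lc_TT {k : ℕ} {a : ℝ} {f : Fin k → ℝ → ℂ} (hf : ∀ i, Fa a (f i)) (c : Fin k → ℂ) (S : Finset (Fin k)) :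
    Fa a (fun x => ∑ i ∈ S, c i * f i x) ∧ ∀ w, TT (fun x => ∑ i ∈ S, c i * f i x) w = ∑ i ∈ S, c i * TT (f i) w := by
  classical
  induction S using Finset.induction_on with
  | empty =>
    simp only [Finset.sum_empty]
    exact ⟨Fa.zero, fun w => TT_zero w⟩
  | insert i S hi ih =>
    have e : (fun x => ∑ j ∈ insert i S, c j * f j x) = fun x => c i * f i x + ∑ j ∈ S, c j * f j x := by
      funext x; rw [Finset.sum_insert hi]
    rw [e]
    refine ⟨((hf i).smul (c i)).add ih.1, fun w => ?_⟩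
    rw [TT_add ((hf i).smul (c i)) ih.1, TT_smul, ih.2 w, Finset.sum_insert hi]

lemma lc_sq {k : ℕ} {a : ℝ} {f : Fin k → ℝ → ℂ} (hf : ∀ i, Fa a (f i)) (c : Fin k → ℂ) (w : ℂ) :
    ‖TT (fun x => ∑ i, c i * f i x) w‖ ^ 2 ≤ (∑ i, ‖c i‖ ^ 2) * ∑ i, ‖TT (f i) w‖ ^ 2 := by
  rw [(lc_TT hf c Finset.univ).2 w]
  have h1 : ‖∑ i, c i * TT (f i) w‖ ≤ ∑ i, ‖c i‖ * ‖TT (f i) w‖ :=
    (norm_sum_le _ _).trans (Finset.sum_le_sum fun i _ => (norm_mul _ _).le)
  exact (pow_le_pow_left₀ (norm_nonneg _) h1 2).trans (Finset.sum_mul_sq_le_sq_mul_sq _ _ _)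

lemma lc_Hd {k : ℕ} {a : ℝ} {f : Fin k → ℝ → ℂ} (hf : ∀ i, Hd a (f i)) (c : Fin k → ℂ) :
    Hd a (fun x => ∑ i, c i * f i x) ∧ LL (fun x => ∑ i, c i * f i x) ≤ (∑ i, ‖c i‖ ^ 2) * ∑ i, LL (f i) := by
  have hF := (lc_TT (fun i => (hf i).1) c Finset.univ).1
  have hint : Integrable (fun v : ℝ => (∑ i, ‖c i‖ ^ 2) * ∑ i, Lg v * ‖TT (f i) (v * I)‖ ^ 2) :=
    (integrable_finsetSum _ fun i _ => (hf i).2).const_mul _
  have hle : ∀ v : ℝ, Lg v * ‖TT (fun x => ∑ i, c i * f i x) (v * I)‖ ^ 2 ≤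
      (∑ i, ‖c i‖ ^ 2) * ∑ i, Lg v * ‖TT (f i) (v * I)‖ ^ 2 := by
    intro v
    have h1 := mul_le_mul_of_nonneg_left (lc_sq (fun i => (hf i).1) c (v * I)) (Lg_pos v).le
    refine h1.trans (le_of_eq ?_)
    rw [← Finset.mul_sum]; ring
  have hi : Integrable (fun v : ℝ => Lg v * ‖TT (fun x => ∑ i, c i * f i x) (v * I)‖ ^ 2) := by
    refine hint.mono' (LL_cont hF).aestronglyMeasurable (Eventually.of_forall fun v => ?_)
    rw [Real.norm_eq_abs, abs_of_nonneg (mul_nonneg (Lg_pos v).le (sq_nonneg _))]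
    exact hle v
  refine ⟨⟨hF, hi⟩, ?_⟩
  calc LL (fun x => ∑ i, c i * f i x) ≤ ∫ v : ℝ, (∑ i, ‖c i‖ ^ 2) * ∑ i, Lg v * ‖TT (f i) (v * I)‖ ^ 2 :=
        integral_mono hi hint hle
    _ = _ := by
        rw [integral_const_mul, integral_finsetSum _ fun i _ => (hf i).2]
        rfl

lemma sumQ [D : ZD] {f : ℝ → ℂ} (hf : Dom f) : Summable (fun ρ : Zt => (mu ρ : ℝ) * (GG f f ((ρ : ℂ) - 1 / 2)).re) := by
  refine Summable.of_norm_bounded ((hf.add hf.refl).mul_left (1 / 2)) fun ρ => ?_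
  rw [norm_mul, Real.norm_natCast, Real.norm_eq_abs]
  have h := mul_le_mul_of_nonneg_left ((Complex.abs_re_le_norm _).trans (norm_GG_half f ((ρ : ℂ) - 1 / 2)))
    (Nat.cast_nonneg (mu ρ) : (0 : ℝ) ≤ mu ρ)
  calc _ ≤ _ := h
    _ = _ := by ring

/-- the form is large and negative on a `k`-dimensional space as soon as there are `k` distinct zeros -/
theorem comb [D : ZD] {k : ℕ} (w : Fin k → ℂ) (hinj : Function.Injective w) {η : ℝ} (hη : 0 < η) (hη1 : η ≤ 1)
    (hre : ∀ i, η ≤ (w i).re) (h0 : ∀ i, 1 / 2 + w i ∈ D.Zs) {ε : ℝ} (hε : 0 < ε) :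
    ∃ a0 : ℝ, 1 ≤ a0 ∧ ∀ a : ℝ, a0 ≤ a → ∃ f : Fin k → ℝ → ℂ, (∀ i, Hd a (f i)) ∧ ∀ c : Fin k → ℂ, c ≠ 0 →
      QQ (fun x => ∑ i, c i * f i x) < -(Real.exp ((2 * η - ε) * a) * LL (fun x => ∑ i, c i * f i x)) := by
  classical
  obtain ⟨K, hK, hz⟩ := zsum_le
  set R0 : ℝ := ∑ i, ∑ j, |(w i).im - (w j).im| with hR0
  have hR : ∀ i j, |(w i).im - (w j).im| ≤ R0 := by
    intro i j
    refine (Finset.single_le_sum (f := fun j => |(w i).im - (w j).im|) (fun _ _ => abs_nonneg _) (Finset.mem_univ j)).trans ?_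
    exact Finset.single_le_sum (f := fun i => ∑ j, |(w i).im - (w j).im|)
      (fun _ _ => Finset.sum_nonneg fun _ _ => abs_nonneg _) (Finset.mem_univ i)
  set G : ℝ := ∑ i, K * Lg (w i).im with hG
  have hG0 : 0 ≤ G := Finset.sum_nonneg fun i _ => mul_nonneg hK.le (Lg_pos _).le
  obtain ⟨a0, ha0, H⟩ := tests w hη hre hη1 h0 R0 (G + 1) (by linarith) (half_pos hε)
  refine ⟨a0, ha0, fun a ha => ?_⟩
  obtain ⟨A, B, V, R, f, hA, hB, hRR, hGB, hV, hf⟩ := H a ha
  have ha1 : 0 < a := by linarith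
  refine ⟨f, fun i => (hf i).dom, fun c hc => ?_⟩
  set F : ℝ → ℂ := fun x => ∑ i, c i * f i x with hF
  obtain ⟨hFd, hFL⟩ := lc_Hd (fun i => (hf i).dom) c
  rw [← hF] at hFd hFL
  obtain ⟨_, _, hdom⟩ := dom_of_Hd ha1
  have hFD : Dom F := (hdom F hFd).1
  set s2 : ℝ := ∑ i, ‖c i‖ ^ 2 with hs2
  have hs20 : 0 ≤ s2 := Finset.sum_nonneg fun i _ => sq_nonneg _
  have hs2p : 0 < s2 := by
    obtain ⟨i, hi⟩ := Function.ne_iff.1 hc
    have h1 : 0 < ‖c i‖ ^ 2 := by
      have : 0 < ‖c i‖ := norm_pos_iff.2 hi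
      positivity
    exact h1.trans_le (Finset.single_le_sum (f := fun i => ‖c i‖ ^ 2) (fun _ _ => sq_nonneg _) (Finset.mem_univ i))
  have hTT : ∀ z, TT F z = ∑ i, c i * TT (f i) z := (lc_TT (fun i => (hf i).dom.1) c Finset.univ).2
  -- the zeros
  have hρ : ∀ i, ∃ ρ : Zt, (ρ : ℂ) - 1 / 2 = w i := fun i => ⟨⟨1 / 2 + w i, h0 i⟩, by simp⟩
  choose ρ hρ using hρ
  have hρim : ∀ i, ((ρ i : Zt) : ℂ).im = (w i).im := by
    intro i
    rw [← hρ i]; simp
  have hρinj : Function.Injective ρ := fun i j h => hinj (by rw [← hρ i, ← hρ j, h])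
  have hrf : ∀ i, ((rfZ (ρ i) : Zt) : ℂ) - 1 / 2 = -conj (w i) := fun i => by rw [rfZ_sub, hρ]
  have hrfim : ∀ ρ : Zt, ((rfZ ρ : Zt) : ℂ).im = (ρ : ℂ).im := by
    intro ρ; rw [rfZ_val]; simp
  have hne1 : ∀ i j, w i ≠ -conj (w j) := by
    intro i j h
    have h1 := congrArg Complex.re h
    rw [Complex.neg_re, Complex.conj_re] at h1
    linarith [hre i, hre j]
  have hne2 : ∀ i j, i ≠ j → -conj (w i) ≠ -conj (w j) := by
    intro i j hij h
    rw [neg_inj] at h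
    exact hij (hinj ((starRingEnd ℂ).injective h))
  have hne3 : ∀ i j, -conj (w i) ≠ w j := fun i j h => hne1 j i h.symm
  have hT0 : ∀ i, TT F (w i) = c i * TT (f i) (w i) := by
    intro i
    rw [hTT, Finset.sum_eq_single i]
    · intro j _ hji
      have := (hf j).near (ρ i) (by rw [hρ]; exact fun h => hji (hinj h).symm) (by rw [hρ]; exact hne1 i j)
        (by rw [hρim]; exact (hR i j).trans hRR)
      rw [hρ] at this
      rw [this, mul_zero]
    · intro h; exact absurd (Finset.mem_univ i) h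
  have hT1 : ∀ i, TT F (-conj (w i)) = c i * TT (f i) (-conj (w i)) := by
    intro i
    rw [hTT, Finset.sum_eq_single i]
    · intro j _ hji
      have := (hf j).near (rfZ (ρ i)) (by rw [hrf]; exact hne3 i j) (by rw [hrf]; exact hne2 i j (Ne.symm hji))
        (by rw [hrfim, hρim]; exact (hR i j).trans hRR)
      rw [hrf] at this
      rw [this, mul_zero]
    · intro h; exact absurd (Finset.mem_univ i) h
  have hcc : ∀ i, ∀ X Y : ℂ, c i * X * conj (c i * Y) = ((‖c i‖ ^ 2 : ℝ) : ℂ) * (X * conj Y) := by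
    intro i X Y
    rw [map_mul]
    have : c i * conj (c i) = ((‖c i‖ ^ 2 : ℝ) : ℂ) := by
      rw [Complex.mul_conj, Complex.normSq_eq_norm_sq]
    calc c i * X * (conj (c i) * conj Y) = (c i * conj (c i)) * (X * conj Y) := by ring
      _ = _ := by rw [this]
  have hG0' : ∀ i, (GG F F (w i)).re ≤ -(A * ‖c i‖ ^ 2) := by
    intro i
    have e : GG F F (w i) = ((‖c i‖ ^ 2 : ℝ) : ℂ) * GG (f i) (f i) (w i) := by
      unfold GG; rw [hT0, hT1, hcc]
    rw [e, Complex.re_ofReal_mul]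
    have := mul_le_mul_of_nonneg_left (hf i).self (sq_nonneg ‖c i‖)
    linarith
  have hG1' : ∀ i, (GG F F (-conj (w i))).re ≤ -(A * ‖c i‖ ^ 2) := by
    intro i
    have e : GG F F (-conj (w i)) = ((‖c i‖ ^ 2 : ℝ) : ℂ) * GG (f i) (f i) (-conj (w i)) := by
      have e2 : -conj (-conj (w i)) = w i := by rw [map_neg, conj_conj, neg_neg]
      unfold GG; rw [e2, hT0, hT1, hcc]
    rw [e, Complex.re_ofReal_mul]
    have := mul_le_mul_of_nonneg_left (hf i).refl (sq_nonneg ‖c i‖)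
    linarith
  -- the pointwise bound
  set tail : Zt → ℝ := fun ζ => s2 * (B * ∑ i, (mu ζ : ℝ) * (1 / (1 + ((ζ : ℂ).im - (w i).im) ^ 2))) with htail
  have htail0 : ∀ ζ, 0 ≤ tail ζ := fun ζ =>
    mul_nonneg hs20 (mul_nonneg hB (Finset.sum_nonneg fun i _ => by positivity))
  have hpt : ∀ ζ : Zt, (mu ζ : ℝ) * (GG F F ((ζ : ℂ) - 1 / 2)).re ≤
      -(∑ i, if ζ = ρ i then A * ‖c i‖ ^ 2 else 0) + tail ζ := by
    intro ζ
    have hmu : (1 : ℝ) ≤ mu ζ := by exact_mod_cast ZD.mpos _ ζ.2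
    by_cases h1 : ∃ i, ζ = ρ i
    · obtain ⟨i, rfl⟩ := h1
      have e : (∑ j, if ρ i = ρ j then A * ‖c j‖ ^ 2 else 0) = A * ‖c i‖ ^ 2 := by
        rw [Finset.sum_eq_single i]
        · simp
        · intro j _ hji
          rw [if_neg]
          exact fun h => hji (hρinj h).symm
        · intro h; exact absurd (Finset.mem_univ i) h
      rw [e, hρ]
      have h2 := hG0' i
      have h3 : 0 ≤ A * ‖c i‖ ^ 2 := by positivity
      have h4 := htail0 (ρ i)
      nlinarith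
    · have e : (∑ j, if ζ = ρ j then A * ‖c j‖ ^ 2 else 0) = 0 := by
        refine Finset.sum_eq_zero fun j _ => ?_
        rw [if_neg]
        exact fun h => h1 ⟨j, h⟩
      rw [e, neg_zero, zero_add]
      by_cases h2 : ∃ i, ζ = rfZ (ρ i)
      · obtain ⟨i, rfl⟩ := h2
        rw [hrf]
        have h3 := hG1' i
        have h4 : 0 ≤ A * ‖c i‖ ^ 2 := by positivity
        have h5 := htail0 (rfZ (ρ i))
        nlinarith
      · have hw1 : ∀ i, (ζ : ℂ) - 1 / 2 ≠ w i := fun i h => h1 ⟨i, Subtype.ext (by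
          have := hρ i
          rw [← h] at this
          exact (sub_left_injective this).symm)⟩
        have hw2 : ∀ i, (ζ : ℂ) - 1 / 2 ≠ -conj (w i) := fun i h => h2 ⟨i, Subtype.ext (by
          have := hrf i
          rw [← h] at this
          exact (sub_left_injective this).symm)⟩
        have hconj : ∀ z : ℂ, -conj (-conj z) = z := fun z => by rw [map_neg, conj_conj, neg_neg]
        have hw1' : ∀ i, ((rfZ ζ : Zt) : ℂ) - 1 / 2 ≠ w i := fun i h => hw2 i (by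
          rw [rfZ_sub] at h
          rw [← h, hconj])
        have hw2' : ∀ i, ((rfZ ζ : Zt) : ℂ) - 1 / 2 ≠ -conj (w i) := fun i h => hw1 i (by
          rw [rfZ_sub, neg_inj] at h
          exact (starRingEnd ℂ).injective h)
        set T : ℝ := s2 * (B * ∑ i, (1 / (1 + ((ζ : ℂ).im - (w i).im) ^ 2))) with hT
        have hb : ∀ ζ' : Zt, (ζ' : ℂ).im = (ζ : ℂ).im → (∀ i, (ζ' : ℂ) - 1 / 2 ≠ w i) →
            (∀ i, (ζ' : ℂ) - 1 / 2 ≠ -conj (w i)) → ‖TT F ((ζ' : ℂ) - 1 / 2)‖ ^ 2 ≤ T := by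
          intro ζ' him ha1 ha2
          refine (lc_sq (fun i => (hf i).dom.1) c _).trans ?_
          rw [hT]
          refine mul_le_mul_of_nonneg_left ?_ hs20
          rw [Finset.mul_sum]
          refine Finset.sum_le_sum fun i _ => ?_
          have := (hf i).far ζ' (ha1 i) (ha2 i)
          rwa [him] at this
        have h3 := hb ζ rfl hw1 hw2
        have h4 := hb (rfZ ζ) (hrfim ζ) hw1' hw2'
        rw [rfZ_sub] at h4
        have h5 : (GG F F ((ζ : ℂ) - 1 / 2)).re ≤ T := by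
          refine ((Complex.re_le_norm _).trans (norm_GG_half F _)).trans ?_
          linarith
        have h6 : tail ζ = (mu ζ : ℝ) * T := by
          rw [htail, hT]
          simp only
          rw [← Finset.mul_sum]; ring
        rw [h6]
        exact mul_le_mul_of_nonneg_left h5 (Nat.cast_nonneg _)
  -- the sum
  have hs1 : HasSum (fun ζ : Zt => ∑ i, if ζ = ρ i then A * ‖c i‖ ^ 2 else 0) (∑ i, A * ‖c i‖ ^ 2) :=
    hasSum_sum fun i _ => hasSum_ite_eq (ρ i) (A * ‖c i‖ ^ 2)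
  have hs3 : Summable tail := by
    refine (Summable.mul_left _ ?_).mul_left s2
    exact summable_sum fun i _ => zsummable (w i).im
  have hs4 : ∑' ζ : Zt, tail ζ ≤ s2 * (B * G) := by
    rw [htail, tsum_mul_left, tsum_mul_left]
    refine mul_le_mul_of_nonneg_left (mul_le_mul_of_nonneg_left ?_ hB) hs20
    rw [Summable.tsum_finsetSum fun i _ => zsummable (w i).im, hG]
    exact Finset.sum_le_sum fun i _ => hz _
  have hQ : QQ F ≤ -(A * s2) + s2 * (B * G) := by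
    calc QQ F ≤ ∑' ζ : Zt, (-(∑ i, if ζ = ρ i then A * ‖c i‖ ^ 2 else 0) + tail ζ) :=
          (sumQ hFD).tsum_le_tsum hpt (hs1.summable.neg.add hs3)
      _ = -(∑ i, A * ‖c i‖ ^ 2) + ∑' ζ : Zt, tail ζ := by
          rw [hs1.summable.neg.tsum_add hs3, tsum_neg, hs1.tsum_eq]
      _ ≤ _ := by
          rw [← Finset.mul_sum, ← hs2]
          linarith
  have hL : LL F ≤ s2 * (k * V) := by
    refine hFL.trans (mul_le_mul_of_nonneg_left ?_ hs20)
    calc ∑ i, LL (f i) ≤ ∑ _i : Fin k, V := Finset.sum_le_sum fun i _ => (hf i).norm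
      _ = k * V := by simp
  have hE : Real.exp ((2 * η - ε) * a) * LL F ≤ s2 * (Real.exp ((2 * η - ε / 2) * a) * (k * V)) * Real.exp (-(ε / 2 * a)) := by
    have e : Real.exp ((2 * η - ε) * a) = Real.exp ((2 * η - ε / 2) * a) * Real.exp (-(ε / 2 * a)) := by
      rw [← Real.exp_add]; congr 1; ring
    rw [e]
    have := mul_le_mul_of_nonneg_left hL (mul_pos (Real.exp_pos ((2 * η - ε / 2) * a)) (Real.exp_pos (-(ε / 2 * a)))).le
    linarith
  have hle1 : Real.exp (-(ε / 2 * a)) < 1 := by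
    rw [Real.exp_lt_one_iff]
    have := mul_pos (half_pos hε) ha1
    linarith
  have hV' : s2 * (Real.exp ((2 * η - ε / 2) * a) * (k * V)) ≤ s2 * (A / 2) := mul_le_mul_of_nonneg_left hV hs20
  have h7 : s2 * (Real.exp ((2 * η - ε / 2) * a) * (k * V)) * Real.exp (-(ε / 2 * a)) < s2 * (A / 2) := by
    have h8 : 0 < Real.exp (-(ε / 2 * a)) := Real.exp_pos _
    have h9 : 0 < s2 * (A / 2) := by positivity
    calc _ ≤ s2 * (A / 2) * Real.exp (-(ε / 2 * a)) := mul_le_mul_of_nonneg_right hV' h8.le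
      _ < s2 * (A / 2) * 1 := mul_lt_mul_of_pos_left hle1 h9
      _ = _ := mul_one _
  have h10 : s2 * (B * G) ≤ s2 * (A / 2) := by
    refine mul_le_mul_of_nonneg_left ?_ hs20
    nlinarith
  linarith

/-- the size of the form at test functions which vanish at the zeros away from the line -/
theorem QQ_le_h [D : ZD] : ∃ C : ℝ, 0 < C ∧ ∀ a h : ℝ, 0 < a → 0 ≤ h → ∀ f : ℝ → ℂ, Hd a f →
    (∀ ρ : Zt, |(ρ : ℂ).re - 1 / 2| ≤ h ∨ GG f f ((ρ : ℂ) - 1 / 2) = 0) →
    |QQ f| ≤ C * (1 + a) ^ 2 * Real.exp (2 * (a + 1) * h) * LL f := by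
  classical
  obtain ⟨K, hK, hz⟩ := zsum
  refine ⟨36 * K, by positivity, fun a h ha hh f hf hZ => ?_⟩
  set C := (6 * (1 + a) * Real.exp ((a + 1) * h)) ^ 2 with hCdef
  have hC : 0 < C := by positivity
  have eC : C * K * LL f = 36 * K * (1 + a) ^ 2 * Real.exp (2 * (a + 1) * h) * LL f := by
    have e : Real.exp (2 * (a + 1) * h) = Real.exp ((a + 1) * h) ^ 2 := by
      rw [← Real.exp_nat_mul]; congr 1; push_cast; ring
    rw [e, hCdef]; ring
  have hJ0 : ∀ y : ℝ, 0 ≤ ∫ t : ℝ, ‖TT f (t * I)‖ ^ 2 * (1 / (1 + (y - t) ^ 2)) :=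
    fun y => integral_nonneg fun t => by positivity
  have hGG : ∀ ρ : Zt, ‖GG f f ((ρ : ℂ) - 1 / 2)‖ ≤ C * ∫ t : ℝ, ‖TT f (t * I)‖ ^ 2 * (1 / (1 + ((ρ : ℂ).im - t) ^ 2)) := by
    intro ρ
    rcases hZ ρ with hρ | hρ
    · have e : ((ρ : ℂ) - 1 / 2).im = (ρ : ℂ).im := by simp
      have e2 : ((ρ : ℂ) - 1 / 2).re = (ρ : ℂ).re - 1 / 2 := by
        rw [Complex.sub_re]; norm_num
      have hb : ∀ w : ℂ, w.im = (ρ : ℂ).im → |w.re| = |(ρ : ℂ).re - 1 / 2| →
          ‖TT f w‖ ^ 2 ≤ C * ∫ t : ℝ, ‖TT f (t * I)‖ ^ 2 * (1 / (1 + ((ρ : ℂ).im - t) ^ 2)) := by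
        intro w h1 h2
        have h3 := pp' ha hf.1 w
        rw [h1, h2] at h3
        refine h3.trans (mul_le_mul_of_nonneg_right ?_ (hJ0 _))
        rw [hCdef]
        refine pow_le_pow_left₀ (by positivity) ?_ 2
        refine mul_le_mul_of_nonneg_left (Real.exp_le_exp.2 ?_) (by positivity)
        exact mul_le_mul_of_nonneg_left hρ (by linarith)
      have h1 := hb ((ρ : ℂ) - 1 / 2) e (by rw [e2])
      have h2 := hb (-conj ((ρ : ℂ) - 1 / 2)) (by rw [Complex.neg_im, Complex.conj_im, e, neg_neg])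
        (by rw [Complex.neg_re, Complex.conj_re, abs_neg, e2])
      refine (norm_GG_half f _).trans ?_
      linarith
    · rw [hρ, norm_zero]
      exact mul_nonneg hC.le (hJ0 _)
  have key : ∀ S : Finset Zt, ∑ ρ ∈ S, (mu ρ : ℝ) * ‖GG f f ((ρ : ℂ) - 1 / 2)‖ ≤ C * K * LL f := by
    intro S
    have hint : ∀ y : ℝ, Integrable (fun t : ℝ => ‖TT f (t * I)‖ ^ 2 * (1 / (1 + (y - t) ^ 2))) := by
      intro y
      refine (int_TT_sq hf.1).mono' ?_ (Eventually.of_forall fun t => ?_)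
      · refine Continuous.aestronglyMeasurable ?_
        refine ((TT_line_cont hf.1).norm.pow 2).mul ?_
        refine continuous_const.div (by fun_prop) fun t => ?_
        positivity
      · have h1 : 1 / (1 + (y - t) ^ 2) ≤ 1 := by
          rw [div_le_one (by positivity)]
          have := sq_nonneg (y - t)
          linarith
        have h2 : 0 ≤ 1 / (1 + (y - t) ^ 2) := by positivity
        have h3 := sq_nonneg ‖TT f (t * I)‖
        rw [Real.norm_eq_abs, abs_of_nonneg (mul_nonneg h3 h2)]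
        nlinarith
    calc ∑ ρ ∈ S, (mu ρ : ℝ) * ‖GG f f ((ρ : ℂ) - 1 / 2)‖
        ≤ ∑ ρ ∈ S, (mu ρ : ℝ) * (C * ∫ t : ℝ, ‖TT f (t * I)‖ ^ 2 * (1 / (1 + ((ρ : ℂ).im - t) ^ 2))) :=
          Finset.sum_le_sum fun ρ _ => mul_le_mul_of_nonneg_left (hGG ρ) (Nat.cast_nonneg _)
      _ = C * ∫ t : ℝ, ∑ ρ ∈ S, (mu ρ : ℝ) * (‖TT f (t * I)‖ ^ 2 * (1 / (1 + ((ρ : ℂ).im - t) ^ 2))) := by
          rw [integral_finsetSum _ fun ρ _ => (hint _).const_mul _, Finset.mul_sum]
          refine Finset.sum_congr rfl fun ρ _ => ?_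
          rw [integral_const_mul]
          ring
      _ ≤ C * ∫ t : ℝ, K * (Lg t * ‖TT f (t * I)‖ ^ 2) := by
          refine mul_le_mul_of_nonneg_left ?_ hC.le
          refine integral_mono (integrable_finsetSum _ fun ρ _ => (hint _).const_mul _) (hf.2.const_mul K) fun t => ?_
          simp only
          have h1 := hz t (S.map (Function.Embedding.subtype _)) (by
            intro s hs
            rw [Finset.mem_map] at hs
            obtain ⟨u, _, rfl⟩ := hs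
            exact u.2)
          rw [Finset.sum_map] at h1
          have e : ∑ ρ ∈ S, (mu ρ : ℝ) * (‖TT f (t * I)‖ ^ 2 * (1 / (1 + ((ρ : ℂ).im - t) ^ 2))) =
              ‖TT f (t * I)‖ ^ 2 * ∑ ρ ∈ S, (mu ρ : ℝ) * (1 / (1 + ((ρ : ℂ).im - t) ^ 2)) := by
            rw [Finset.mul_sum]
            exact Finset.sum_congr rfl fun ρ _ => by ring
          rw [e]
          have h2 : ‖TT f (t * I)‖ ^ 2 * ∑ ρ ∈ S, (mu ρ : ℝ) * (1 / (1 + ((ρ : ℂ).im - t) ^ 2)) ≤
              ‖TT f (t * I)‖ ^ 2 * (K * Lg t) := mul_le_mul_of_nonneg_left h1 (sq_nonneg _)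
          linarith
      _ = C * K * LL f := by
          rw [integral_const_mul]; unfold LL; ring
  have hs : Summable (fun ρ : Zt => (mu ρ : ℝ) * ‖GG f f ((ρ : ℂ) - 1 / 2)‖) :=
    summable_of_sum_le (fun ρ => by positivity) key
  rw [← eC]
  refine le_trans ?_ (hs.tsum_le_of_sum_le key)
  have hb : ∀ ρ : Zt, ‖(mu ρ : ℝ) * (GG f f ((ρ : ℂ) - 1 / 2)).re‖ ≤ (mu ρ : ℝ) * ‖GG f f ((ρ : ℂ) - 1 / 2)‖ := by
    intro ρ
    rw [norm_mul, Real.norm_natCast, Real.norm_eq_abs]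
    exact mul_le_mul_of_nonneg_left (Complex.abs_re_le_norm _) (Nat.cast_nonneg _)
  exact tsum_of_norm_bounded hs.hasSum hb

/-- if fewer than `k` zeros lie to the right of the line `1/2 + h`, every `k`-dimensional space contains a test function at
which the form is not very negative -/
theorem QQ_small [D : ZD] : ∃ C : ℝ, 0 < C ∧ ∀ a h : ℝ, 0 < a → 0 ≤ h → ∀ k : ℕ,
    (¬ ∃ w : Fin k → ℂ, Function.Injective w ∧ ∀ i, w i ∈ D.Zs ∧ 1 / 2 + h < (w i).re) →
    ∀ f : Fin k → ℝ → ℂ, (∀ i, Hd a (f i)) → ∃ c : Fin k → ℂ, c ≠ 0 ∧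
      |QQ (fun x => ∑ i, c i * f i x)| ≤ C * (1 + a) ^ 2 * Real.exp (2 * (a + 1) * h) * LL (fun x => ∑ i, c i * f i x) := by
  classical
  obtain ⟨C, hC, H⟩ := QQ_le_h (D := D)
  refine ⟨C, hC, fun a h ha hh k hk f hf => ?_⟩
  set S : Set ℂ := {s | s ∈ D.Zs ∧ 1 / 2 + h < s.re} with hS
  have hfin : S.Finite := by
    by_contra hinf
    have hinf' : S.Infinite := hinf
    have := hinf'.natEmbedding
    refine hk ⟨fun i => (this i : ℂ), fun i j hij => ?_, fun i => (this i).2⟩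
    exact Fin.ext (this.injective (Subtype.ext hij))
  set T : Finset ℂ := hfin.toFinset with hT
  have hcard : T.card < k := by
    by_contra hge
    rw [not_lt] at hge
    obtain ⟨e⟩ : Nonempty (Fin k ↪ T) := by
      refine Function.Embedding.nonempty_of_card_le ?_
      rw [Fintype.card_fin, Fintype.card_coe]; exact hge
    refine hk ⟨fun i => (e i : ℂ), fun i j hij => e.injective (Subtype.ext hij), fun i => ?_⟩
    exact (Set.Finite.mem_toFinset hfin).1 (e i).2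
  let L : (Fin k → ℂ) →ₗ[ℂ] (T → ℂ) :=
    { toFun := fun c s => ∑ i, c i * TT (f i) ((s : ℂ) - 1 / 2)
      map_add' := fun c c' => by
        funext s
        simp only [Pi.add_apply, add_mul, Finset.sum_add_distrib]
      map_smul' := fun r c => by
        funext s
        simp only [Pi.smul_apply, smul_eq_mul, RingHom.id_apply, Finset.mul_sum]
        exact Finset.sum_congr rfl fun i _ => by ring }
  have hker : LinearMap.ker L ≠ ⊥ := by
    apply LinearMap.ker_ne_bot_of_finrank_lt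
    rw [Module.finrank_fintype_fun_eq_card, Module.finrank_fintype_fun_eq_card, Fintype.card_coe, Fintype.card_fin]
    exact hcard
  obtain ⟨c, hc, hc0⟩ := (Submodule.ne_bot_iff _).1 hker
  have hcL : ∀ s ∈ T, ∑ i, c i * TT (f i) (s - 1 / 2) = 0 := fun s hs => congrFun (LinearMap.mem_ker.1 hc) ⟨s, hs⟩
  refine ⟨c, hc0, H a h ha hh _ (lc_Hd hf c).1 fun ρ => ?_⟩
  by_cases hρ : |(ρ : ℂ).re - 1 / 2| ≤ h
  · exact Or.inl hρ
  · right
    rw [not_le, lt_abs] at hρ
    have hTT := (lc_TT (fun i => (hf i).1) c Finset.univ).2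
    unfold GG
    rcases hρ with h1 | h1
    · have : (ρ : ℂ) ∈ T := by
        rw [hT, Set.Finite.mem_toFinset]
        exact ⟨ρ.2, by linarith⟩
      rw [hTT, hcL _ this, zero_mul]
    · have : ((rfZ ρ : Zt) : ℂ) ∈ T := by
        rw [hT, Set.Finite.mem_toFinset]
        refine ⟨(rfZ ρ).2, ?_⟩
        rw [rfZ_val, Complex.sub_re, Complex.conj_re, Complex.one_re]
        linarith
      have h2 := hcL _ this
      rw [rfZ_sub] at h2
      rw [hTT (-conj ((ρ : ℂ) - 1 / 2)), h2, map_zero, mul_zero]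

end Pool.Agent.Y23.G.WS
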