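import Pool.Agent.Run7.h517.WS5

/-!
# The min-max values of the Weil form relative to the norm of its domain
-/

set_option autoImplicit false
set_option linter.unusedSectionVars false
set_option maxHeartbeats 2000000

open MeasureTheory Complex Filter Topology Set
open scoped ComplexConjugate

namespace Pool.Agent.Y23.G.WS

variable [D : ZD]

/-- there are `k` distinct zeros to the right of the line `σ` -/
def MZ (k : ℕ) (σ : ℝ) : Prop := ∃ w : Fin k → ℂ, Function.Injective w ∧ ∀ i, w i ∈ D.Zs ∧ σ < (w i).re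

/-- the values of the form on a `k`-dimensional space are at most `r` times the norm -/
def Le (k : ℕ) (a r : ℝ) : Prop := ∃ f : Fin k → ℝ → ℂ, (∀ i, Hd a (f i)) ∧ ∀ c : Fin k → ℂ, c ≠ 0 →
  0 < LL (fun x => ∑ i, c i * f i x) ∧ QQ (fun x => ∑ i, c i * f i x) ≤ r * LL (fun x => ∑ i, c i * f i x)

/-- the `k`-th min-max value -/
noncomputable def lm (k : ℕ) (a : ℝ) : ℝ := sInf {r : ℝ | Le k a r}

lemma MZ.anti {k : ℕ} {σ σ' : ℝ} (h : MZ k σ) (hs : σ' ≤ σ) : MZ k σ' := by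
  obtain ⟨w, h1, h2⟩ := h
  exact ⟨w, h1, fun i => ⟨(h2 i).1, lt_of_le_of_lt hs (h2 i).2⟩⟩

lemma not_MZ_of_strip {k : ℕ} (hk : 1 ≤ k) {σ : ℝ} (hs : 3 / 2 ≤ σ) : ¬ MZ k σ := by
  rintro ⟨w, _, h⟩
  have h1 := h ⟨0, hk⟩
  have h2 := (abs_le.1 (D.strip _ h1.1)).2
  linarith [h1.2]

lemma MZ.open {k : ℕ} {σ : ℝ} (h : MZ k σ) (hk : 1 ≤ k) : ∃ σ' : ℝ, σ < σ' ∧ MZ k σ' := by
  obtain ⟨w, h1, h2⟩ := h
  haveI : Nonempty (Fin k) := ⟨⟨0, hk⟩⟩
  obtain ⟨i0, hi0⟩ := Finite.exists_min fun i => (w i).re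
  refine ⟨(σ + (w i0).re) / 2, by linarith [(h2 i0).2], w, h1, fun i => ⟨(h2 i).1, ?_⟩⟩
  have := hi0 i
  linarith [(h2 i0).2]

lemma poly_exp {C δ : ℝ} (hC : 0 < C) (hδ : 0 < δ) : ∃ A : ℝ, 1 ≤ A ∧ ∀ a : ℝ, A ≤ a → C * (1 + a) ^ 2 < Real.exp (δ * a) := by
  refine ⟨max 1 (24 * C / δ ^ 3 + 1), le_max_left _ _, fun a ha => ?_⟩
  have h1 : 1 ≤ a := (le_max_left _ _).trans ha
  have h2 : 24 * C / δ ^ 3 + 1 ≤ a := (le_max_right _ _).trans ha
  have h3 : (δ * a) ^ 3 / (Nat.factorial 3 : ℝ) ≤ Real.exp (δ * a) := Real.pow_div_factorial_le_exp _ (by positivity) 3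
  have h4 : (Nat.factorial 3 : ℝ) = 6 := by norm_num [Nat.factorial]
  rw [h4] at h3
  have h5 : 24 * C < δ ^ 3 * a := by
    have : 24 * C / δ ^ 3 < a := by linarith
    rw [div_lt_iff₀ (by positivity)] at this
    linarith
  have h6 : C * (1 + a) ^ 2 ≤ 4 * C * a ^ 2 := by
    have : (1 + a) ^ 2 ≤ 4 * a ^ 2 := by nlinarith
    nlinarith
  have h7 : 4 * C * a ^ 2 < (δ * a) ^ 3 / 6 := by
    have h8 : 0 < a ^ 2 := by positivity
    have h9 := mul_lt_mul_of_pos_right h5 h8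
    have e : (δ * a) ^ 3 = δ ^ 3 * a * a ^ 2 := by ring
    rw [e]
    linarith
  linarith

lemma poly_exp' {δ : ℝ} (hδ : 0 < δ) {a : ℝ} (ha : 0 < a) : (1 + a) ^ 2 ≤ (1 + 2 / δ + 2 / δ ^ 2) * Real.exp (δ * a) := by
  have h1 := Real.quadratic_le_exp_of_nonneg (x := δ * a) (by positivity)
  have h2 : (1 + a) ^ 2 ≤ (1 + 2 / δ + 2 / δ ^ 2) * (1 + δ * a + (δ * a) ^ 2 / 2) := by
    have e : (1 + 2 / δ + 2 / δ ^ 2) * (1 + δ * a + (δ * a) ^ 2 / 2) - (1 + a) ^ 2 =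
        2 / δ + 2 / δ ^ 2 + δ * a + (δ * a) ^ 2 / 2 + 2 * a / δ + δ * a ^ 2 := by
      field_simp
      ring
    have h3 : 0 ≤ 2 / δ + 2 / δ ^ 2 + δ * a + (δ * a) ^ 2 / 2 + 2 * a / δ + δ * a ^ 2 := by positivity
    linarith
  exact h2.trans (mul_le_mul_of_nonneg_left h1 (by positivity))

/-- **lower bound** -/
theorem lower : ∃ C : ℝ, 0 < C ∧ ∀ (k : ℕ) (a h : ℝ), 0 < a → 0 ≤ h → ¬ MZ k (1 / 2 + h) →
    (∀ r, Le k a r → -(C * (1 + a) ^ 2 * Real.exp (2 * h * a)) ≤ r) ∧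
    -(C * (1 + a) ^ 2 * Real.exp (2 * h * a)) ≤ lm k a := by
  obtain ⟨C, hC, H⟩ := QQ_small (D := D)
  refine ⟨C * Real.exp 2, by positivity, fun k a h ha hh hk => ?_⟩
  have key : ∀ r, Le k a r → -(C * Real.exp 2 * (1 + a) ^ 2 * Real.exp (2 * h * a)) ≤ r := by
    rintro r ⟨f, hf, hr⟩
    have hk0 : 1 ≤ k := by
      by_contra hlt
      have : k = 0 := by omega
      subst this
      exact hk ⟨fun i => i.elim0, fun i => i.elim0, fun i => i.elim0⟩
    have hk' : ¬ MZ k (1 / 2 + min h 1) := by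
      rcases le_total h 1 with h1 | h1
      · rwa [min_eq_left h1]
      · rw [min_eq_right h1]
        exact not_MZ_of_strip hk0 (by norm_num)
    obtain ⟨c, hc, hQ⟩ := H a (min h 1) ha (le_min hh zero_le_one) k hk' f hf
    obtain ⟨h1, h2⟩ := hr c hc
    set F := fun x => ∑ i, c i * f i x
    have h3 := (abs_le.1 hQ).1
    have h4 : C * (1 + a) ^ 2 * Real.exp (2 * (a + 1) * min h 1) ≤ C * Real.exp 2 * (1 + a) ^ 2 * Real.exp (2 * h * a) := by
      have h5 : Real.exp (2 * (a + 1) * min h 1) ≤ Real.exp 2 * Real.exp (2 * h * a) := by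
        rw [← Real.exp_add]
        refine Real.exp_le_exp.2 ?_
        have h6 : min h 1 ≤ h := min_le_left _ _
        have h7 : min h 1 ≤ 1 := min_le_right _ _
        nlinarith
      calc _ ≤ C * (1 + a) ^ 2 * (Real.exp 2 * Real.exp (2 * h * a)) := mul_le_mul_of_nonneg_left h5 (by positivity)
        _ = _ := by ring
    have h5 := mul_le_mul_of_nonneg_right h4 h1.le
    have h6 : -(C * Real.exp 2 * (1 + a) ^ 2 * Real.exp (2 * h * a)) * LL F ≤ r * LL F := by linarith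
    exact le_of_mul_le_mul_right h6 h1
  refine ⟨key, ?_⟩
  unfold lm
  rcases Set.eq_empty_or_nonempty {r : ℝ | Le k a r} with he | hne
  · rw [he, Real.sInf_empty]
    have : 0 < C * Real.exp 2 * (1 + a) ^ 2 * Real.exp (2 * h * a) := by positivity
    linarith
  · exact le_csInf hne key

lemma bdd {k : ℕ} (hk : 1 ≤ k) {a : ℝ} (ha : 0 < a) : BddBelow {r : ℝ | Le k a r} := by
  obtain ⟨C, hC, H⟩ := lower (D := D)
  exact ⟨_, fun r hr => (H k a 1 ha zero_le_one (not_MZ_of_strip hk (by norm_num))).1 r hr⟩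

lemma QQ_zero_of_LL {a : ℝ} (ha : 0 < a) {f : ℝ → ℂ} (hf : Hd a f) (h0 : LL f = 0) : QQ f = 0 := by
  obtain ⟨C, hC, H⟩ := QQ_le_h (D := D)
  have h1 := H a 1 ha zero_le_one f hf fun ρ => Or.inl (D.strip _ ρ.2)
  rw [h0, mul_zero] at h1
  exact abs_eq_zero.1 (le_antisymm h1 (abs_nonneg _))

/-- **upper bound** -/
theorem upper {k : ℕ} (hk : 1 ≤ k) {h : ℝ} (hh : 0 ≤ h) (hm : MZ k (1 / 2 + h)) :
    ∃ ε A : ℝ, 0 < ε ∧ 1 ≤ A ∧ ∀ a : ℝ, A ≤ a → lm k a ≤ -Real.exp ((2 * h + ε) * a) := by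
  obtain ⟨w, h1, h2⟩ := hm
  haveI : Nonempty (Fin k) := ⟨⟨0, hk⟩⟩
  obtain ⟨i0, hi0⟩ := Finite.exists_min fun i => (w i).re
  set η := (w i0).re - 1 / 2 with hη
  have hηh : h < η := by
    have := (h2 i0).2
    rw [hη]; linarith
  have hη1 : η ≤ 1 := (abs_le.1 (D.strip _ (h2 i0).1)).2
  have hre : ∀ i, η ≤ (w i - 1 / 2).re := by
    intro i
    rw [hη, Complex.sub_re]
    have := hi0 i
    norm_num
    exact this
  obtain ⟨a0, ha0, H⟩ := comb (fun i => w i - 1 / 2) (fun i j hij => h1 (sub_left_injective hij)) (by linarith : 0 < η)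
    hη1 hre (fun i => by
      have := (h2 i).1
      rwa [show (1 : ℂ) / 2 + (w i - 1 / 2) = w i by ring]) (ε := η - h) (by linarith)
  refine ⟨η - h, a0, by linarith, ha0, fun a ha => ?_⟩
  have hap : 0 < a := by linarith
  obtain ⟨f, hf, hQ⟩ := H a ha
  refine csInf_le (bdd hk hap) ⟨f, hf, fun c hc => ?_⟩
  have hF := (lc_Hd hf c).1
  have h3 := hQ c hc
  set F := fun x => ∑ i, c i * f i x
  have h4 : 0 < LL F := by
    rcases (LL_nonneg F).lt_or_eq with h5 | h5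
    · exact h5
    · exfalso
      rw [← h5, mul_zero, neg_zero, QQ_zero_of_LL hap hF h5.symm] at h3
      exact lt_irrefl _ h3
  refine ⟨h4, ?_⟩
  have e : 2 * η - (η - h) = 2 * h + (η - h) := by ring
  rw [e] at h3
  linarith

lemma QQ_smul' (f : ℝ → ℂ) (c : ℂ) : QQ (fun x => c * f x) = ‖c‖ ^ 2 * QQ f := by
  unfold QQ
  rw [← tsum_mul_left]
  refine tsum_congr fun ρ => ?_
  have h : GG (fun x => c * f x) (fun x => c * f x) ((ρ : ℂ) - 1 / 2) =
      ((‖c‖ ^ 2 : ℝ) : ℂ) * GG f f ((ρ : ℂ) - 1 / 2) := by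
    unfold GG
    rw [TT_smul, TT_smul, map_mul]
    have : ((‖c‖ ^ 2 : ℝ) : ℂ) = c * conj c := by
      rw [Complex.mul_conj, Complex.normSq_eq_norm_sq]
    rw [this]; ring
  rw [h, Complex.re_ofReal_mul]
  ring

/-- the first value is the optimal constant -/
theorem lm_one {a : ℝ} (ha : 0 < a) {f : ℝ → ℂ} (hf : Hd a f) : lm 1 a * LL f ≤ QQ f := by
  rcases (LL_nonneg f).lt_or_eq with h0 | h0
  · have h1 : lm 1 a ≤ QQ f / LL f := by
      refine csInf_le (bdd le_rfl ha) ⟨fun _ => f, fun _ => hf, fun c hc => ?_⟩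
      have e : (fun x => ∑ i : Fin 1, c i * f x) = fun x => c 0 * f x := by
        funext x; rw [Fin.sum_univ_one]
      have hc0 : c 0 ≠ 0 := by
        intro h
        refine hc (funext fun i => ?_)
        rw [Subsingleton.elim i 0]; exact h
      rw [e, LL_smul, QQ_smul']
      have h2 : 0 < ‖c 0‖ := norm_pos_iff.2 hc0
      refine ⟨by positivity, ?_⟩
      rw [div_mul_eq_mul_div, le_div_iff₀ h0]
      linarith
    rwa [le_div_iff₀ h0] at h1
  · rw [← h0, mul_zero, QQ_zero_of_LL ha hf h0.symm]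

end Pool.Agent.Y23.G.WS
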